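import Mathlib
import Pool.Agent.Shared.NP.Defs
import Pool.Agent.Shared.PolyTime.GraphEnc

/-!
The Waiter-Client domination game, and the classes PSPACE, PSPACE-hard and PSPACE-complete
through Mathlib's TM2 machines.
-/

set_option autoImplicit false

namespace Pool.Agent.Lib.MP_2d136f_lc

open Pool.Agent.Shared.PolyTime Pool.Agent.Shared.NP Turing

/-- `D` is a dominating set of `G`. -/
def Dominating {V : Type} (G : SimpleGraph V) (D : Finset V) : Prop :=
  ∀ v, v ∈ D ∨ ∃ u ∈ D, G.Adj v u

/-- `DomWins G D S`: Dominator has a winning strategy from the position in which she owns `D`,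
Staller owns `S` and a round is about to start.  Either `D` already contains a dominating set, or
she can offer two unclaimed vertices such that she wins whichever of them Staller keeps.  (With at
most one unclaimed vertex she receives nothing more, so only the first case can apply.) -/
inductive DomWins {V : Type} [DecidableEq V] (G : SimpleGraph V) : Finset V → Finset V → Prop
  | won {D S : Finset V} (D' : Finset V) : D' ⊆ D → Dominating G D' → DomWins G D S
  | offer {D S : Finset V} (u v : V) : u ≠ v → u ∉ D → u ∉ S → v ∉ D → v ∉ S →
      DomWins G (insert u D) (insert v S) → DomWins G (insert v D) (insert u S) → DomWins G D S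

/-- Instances: finite simple graphs on `Fin n`. -/
structure GraphInst : Type where
  /-- number of vertices -/
  n : ℕ
  /-- the graph -/
  graph : SimpleGraph (Fin n)

/-- The input string: the adjacency matrix. -/
noncomputable def GraphInst.code (x : GraphInst) : List Bool := encGraph x.graph

/-- The yes-instances of WC-DOM. -/
def WCDom (x : GraphInst) : Prop := DomWins x.graph ∅ ∅

/-- The problem is decided by a deterministic Turing machine (finitely many stacks, states and
instructions) that halts on every instance with the right one-bit answer and all of whose stacks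
keep polynomial length during the whole run. -/
def InPSPACE {I : Type} (e : I → List Bool) (Y : I → Prop) : Prop :=
  ∃ (tm : FinTM2) (ein : tm.Γ tm.k₀ ≃ Bool) (eout : tm.Γ tm.k₁ ≃ Bool) (p : Polynomial ℕ),
    ∀ i : I,
      (∃ b : Bool, (Y i ↔ b = true) ∧
        Nonempty (TM2Outputs tm ((e i).map ein.symm) (some [eout.symm b]))) ∧
      ∀ (m : ℕ) (c : tm.Cfg),
        (flip bind tm.step)^[m] (some (initList tm ((e i).map ein.symm))) = some c →
          ∀ k, (c.stk k).length ≤ p.eval (e i).length

/-- Every language of binary strings in PSPACE has a polynomial-time many-one reduction to the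
problem. -/
def PSPACEHard {I : Type} (e : I → List Bool) (Y : I → Prop) : Prop :=
  ∀ L : List Bool → Prop, InPSPACE id L →
    ∃ f : List Bool → I, PolyComputable id e f ∧ ∀ x : List Bool, L x ↔ Y (f x)

/-- PSPACE-complete. -/
def PSPACEComplete {I : Type} (e : I → List Bool) (Y : I → Prop) : Prop :=
  InPSPACE e Y ∧ PSPACEHard e Y

end Pool.Agent.Lib.MP_2d136f_lc
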