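import Pool.Agent.Lib.MP_2d136f_lc.Defs

-- part Pool.Agent.Lib.MP_2d136f_lc.Game
section

/-!
The game on vertices numbered below `n`, and the invariant method for Staller.
-/

set_option autoImplicit false

namespace Pool.Agent.Lib.MP_2d136f_lc

/-- Domination for an adjacency function on numbers below `n`. -/
def Dom (n : ℕ) (A : ℕ → ℕ → Bool) (D : Finset ℕ) : Prop :=
  ∀ v < n, v ∈ D ∨ ∃ u ∈ D, A v u = true

/-- Legal offers. -/
def Legal (n : ℕ) (D S : Finset ℕ) (u v : ℕ) : Prop :=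
  u < n ∧ v < n ∧ u ≠ v ∧ u ∉ D ∧ u ∉ S ∧ v ∉ D ∧ v ∉ S

theorem Legal.symm {n : ℕ} {D S : Finset ℕ} {u v : ℕ} (h : Legal n D S u v) : Legal n D S v u :=
  ⟨h.2.1, h.1, h.2.2.1.symm, h.2.2.2.2.2.1, h.2.2.2.2.2.2, h.2.2.2.1, h.2.2.2.2.1⟩

/-- Winning positions of Dominator. -/
inductive Win (n : ℕ) (A : ℕ → ℕ → Bool) : Finset ℕ → Finset ℕ → Prop
  | won {D S : Finset ℕ} : Dom n A D → Win n A D S
  | offer {D S : Finset ℕ} (u v : ℕ) : Legal n D S u v →
      Win n A (insert u D) (insert v S) → Win n A (insert v D) (insert u S) → Win n A D S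

theorem domWins_iff {n : ℕ} (G : SimpleGraph (Fin n)) (A : ℕ → ℕ → Bool)
    (h : ∀ i j : Fin n, G.Adj i j ↔ A i j = true) (D S : Finset (Fin n)) :
    DomWins G D S ↔ Win n A (D.image Fin.val) (S.image Fin.val) := by
  have mem : ∀ (D : Finset (Fin n)) (u : Fin n), u.val ∈ D.image Fin.val ↔ u ∈ D := by
    intro D u
    simp [Fin.val_inj]
  constructor
  · intro hw
    induction hw with
    | won D' h1 h2 =>
      refine Win.won fun v hv => ?_
      rcases h2 ⟨v, hv⟩ with h3 | ⟨u, h3, h4⟩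
      · exact Or.inl ((mem _ ⟨v, hv⟩).2 (h1 h3))
      · exact Or.inr ⟨u, (mem _ u).2 (h1 h3), (h _ _).1 h4⟩
    | offer u v h1 h2 h3 h4 h5 _ _ ih1 ih2 =>
      refine Win.offer u v ⟨u.2, v.2, fun e => h1 (Fin.ext e), ?_, ?_, ?_, ?_⟩ ?_ ?_
      · rwa [mem]
      · rwa [mem]
      · rwa [mem]
      · rwa [mem]
      · simpa only [Finset.image_insert] using ih1
      · simpa only [Finset.image_insert] using ih2
  · intro hw
    generalize hD : D.image Fin.val = D' at hw
    generalize hS : S.image Fin.val = S' at hw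
    induction hw generalizing D S with
    | won h1 =>
      subst hD
      refine DomWins.won D subset_rfl fun v => ?_
      rcases h1 v v.2 with h3 | ⟨u, h3, h4⟩
      · exact Or.inl ((mem _ v).1 h3)
      · obtain ⟨u, h5, rfl⟩ := Finset.mem_image.1 h3
        exact Or.inr ⟨u, h5, (h _ _).2 h4⟩
    | offer u v hl _ _ ih1 ih2 =>
      subst hD hS
      obtain ⟨h1, h2, h3, h4, h5, h6, h7⟩ := hl
      refine DomWins.offer ⟨u, h1⟩ ⟨v, h2⟩ (fun e => h3 (congrArg Fin.val e)) ?_ ?_ ?_ ?_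
        (ih1 _ _ ?_ ?_) (ih2 _ _ ?_ ?_)
      · rwa [← mem]
      · rwa [← mem]
      · rwa [← mem]
      · rwa [← mem]
      all_goals rw [Finset.image_insert]

theorem Dom.mono {n : ℕ} {A : ℕ → ℕ → Bool} {D D' : Finset ℕ} (h : Dom n A D) (hD : D ⊆ D') :
    Dom n A D' := fun v hv => (h v hv).imp (fun h => hD h) fun ⟨u, h1, h2⟩ => ⟨u, hD h1, h2⟩

/-- An invariant that Staller can keep and that excludes domination at the end. -/
theorem not_win {n : ℕ} {A : ℕ → ℕ → Bool} (I : Finset ℕ → Finset ℕ → Prop)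
    (hstep : ∀ D S u v, I D S → Legal n D S u v →
      I (insert u D) (insert v S) ∨ I (insert v D) (insert u S))
    (hend : ∀ D S, I D S → (∀ u v, ¬ Legal n D S u v) → ¬ Dom n A D)
    {D S : Finset ℕ} (hI : I D S) : ¬ Win n A D S := by
  have key : ∀ (k : ℕ) (D S : Finset ℕ), (Finset.range n \ D).card ≤ k → I D S → ¬ Dom n A D := by
    intro k
    induction k with
    | zero =>
      intro D S hk hI
      refine hend D S hI fun u v hl => ?_
      have : u ∈ Finset.range n \ D := by simp [hl.1, hl.2.2.2.1]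
      have := Finset.card_pos.2 ⟨u, this⟩
      omega
    | succ k ih =>
      intro D S hk hI
      by_cases hl : ∃ u v, Legal n D S u v
      · obtain ⟨u, v, hl⟩ := hl
        have hc : ∀ w, w < n → w ∉ D → (Finset.range n \ insert w D).card ≤ k := by
          intro w h1 h2
          rw [Finset.sdiff_insert, Finset.card_erase_of_mem (by simp [h1, h2])]
          omega
        intro hd
        rcases hstep D S u v hI hl with h | h
        · exact ih _ _ (hc u hl.1 hl.2.2.2.1) h (hd.mono (Finset.subset_insert _ _))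
        · exact ih _ _ (hc v hl.2.1 hl.2.2.2.2.2.1) h (hd.mono (Finset.subset_insert _ _))
      · exact hend D S hI fun u v h => hl ⟨u, v, h⟩
  intro hw
  induction hw with
  | won h => exact key _ _ _ le_rfl hI h
  | offer u v hl _ _ ih1 ih2 => exact (hstep _ _ u v hI hl).elim ih1 ih2

end Pool.Agent.Lib.MP_2d136f_lc
end

-- part Pool.Agent.Lib.MP_2d136f_lc.Gadget
section

/-!
Paired formulas, their graphs, and Dominator's strategy.
-/

set_option autoImplicit false

namespace Pool.Agent.Lib.MP_2d136f_lc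

open Function

/-- Literals: sign, kind (`false`: first variable, `true`: second variable), index. -/
abbrev PL : Type := Bool × Bool × ℕ
/-- Clauses. -/
abbrev PC : Type := PL × PL × PL

/-- Truth of a literal. -/
def LT (ξ ζ : ℕ → Bool) (l : PL) : Prop := (bif l.2.1 then ζ l.2.2 else ξ l.2.2) = l.1

/-- Truth of a clause. -/
def CT (ξ ζ : ℕ → Bool) (c : PC) : Prop := LT ξ ζ c.1 ∨ LT ξ ζ c.2.1 ∨ LT ξ ζ c.2.2

/-- All indices are below `N`. -/
def Bdd (N : ℕ) (φ : List PC) : Prop := ∀ c ∈ φ, c.1.2.2 < N ∧ c.2.1.2.2 < N ∧ c.2.2.2.2 < N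

/-- The first player wins, playing in the order of the indices. -/
def WForm (φ : List PC) : Prop :=
  ∃ τ : (ℕ → Bool) → ℕ → Bool, (∀ ζ ζ' g, (∀ h < g, ζ h = ζ' h) → τ ζ g = τ ζ' g) ∧
    ∀ ζ, ∀ c ∈ φ, CT (τ ζ) ζ c

/-- The second player wins when the order of the indices is imposed. -/
def SForm (φ : List PC) : Prop :=
  ∃ σ : (ℕ → Bool) → ℕ → Bool, (∀ ξ ξ' g, (∀ h ≤ g, ξ h = ξ' h) → σ ξ g = σ ξ' g) ∧
    ∀ ξ, ∃ c ∈ φ, ¬ CT ξ (σ ξ) c

/-- The second player wins whatever order the first player chooses. -/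
def CForm (N : ℕ) (φ : List PC) : Prop :=
  ∃ (J : Finset ℕ → (ℕ → Bool) → (ℕ → Bool) → Prop) (ξ₀ ζ₀ : ℕ → Bool), J ∅ ξ₀ ζ₀ ∧
    (∀ P ξ ζ g x, J P ξ ζ → g ∉ P → ∃ z, J (insert g P) (update ξ g x) (update ζ g z)) ∧
    ∀ P ξ ζ, J P ξ ζ → (∀ g < N, g ∈ P) → ∃ c ∈ φ, ¬ CT ξ ζ c

/-- The two vertices of a block that Staller wants for the values `x`, `z`. -/
def Tm (x z : Bool) : List ℕ :=
  bif x then (bif z then [0, 2] else [1, 3]) else (bif z then [0, 1] else [2, 3])

/-- Vertex sets whose occupation by Staller falsifies a literal. -/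
def fs (l : PL) (β : Bool) : List ℕ :=
  (Tm (bif l.2.1 then β else !l.1) (bif l.2.1 then !l.1 else β)).map fun r => 4 * l.2.2 + r

/-- Triples inside a block. -/
def tri (g r : ℕ) : List ℕ := ((List.range 4).filter fun s => !(s == r)).map fun s => 4 * g + s

/-- The edges. -/
def edges (N : ℕ) (φ : List PC) : List (List ℕ) :=
  ((List.range N).flatMap fun g => (List.range 4).map fun r => tri g r) ++
  φ.flatMap fun c => [false, true].flatMap fun β₁ => [false, true].flatMap fun β₂ =>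
    [false, true].map fun β₃ => fs c.1 β₁ ++ (fs c.2.1 β₂ ++ fs c.2.2 β₃)

/-- One direction of the adjacency. -/
def half (X M : ℕ) (E : List (List ℕ)) (u w : ℕ) : Bool :=
  Nat.blt u X && (Nat.blt w X || (E.getD ((w - X) / M) []).contains u)

/-- The split graph: a clique on the numbers below `X`, and `M` twins for every edge. -/
def adj (X M : ℕ) (E : List (List ℕ)) (u w : ℕ) : Bool :=
  !(u == w) && (half X M E u w || half X M E w u)

theorem adj_symm (X M : ℕ) (E : List (List ℕ)) (u w : ℕ) : adj X M E u w = adj X M E w u := by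
  unfold adj
  rw [Bool.or_comm, BEq.comm]

theorem mem_edges {N : ℕ} {φ : List PC} {e : List ℕ} : e ∈ edges N φ ↔
    (∃ g < N, ∃ r < 4, e = tri g r) ∨
      ∃ c ∈ φ, ∃ β₁ β₂ β₃, e = fs c.1 β₁ ++ (fs c.2.1 β₂ ++ fs c.2.2 β₃) := by
  have hb : ∀ b : Bool, b ∈ [false, true] := by decide
  simp only [edges, List.mem_append, List.mem_flatMap, List.mem_map, List.mem_range, hb, true_and,
    eq_comm (a := e)]

theorem mem_tri {g r u : ℕ} : u ∈ tri g r ↔ ∃ s < 4, s ≠ r ∧ u = 4 * g + s := by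
  simp only [tri, List.mem_map, List.mem_filter, List.mem_range, Bool.not_eq_eq_eq_not,
    Bool.not_true, beq_eq_false_iff_ne, and_assoc, eq_comm (a := u)]

theorem Tm_lt {x z : Bool} {r : ℕ} (h : r ∈ Tm x z) : r < 4 := by
  cases x <;> cases z <;> simp [Tm] at h <;> omega

/-- What Dominator owns in a finished block. -/
def Good (D : Finset ℕ) (g : ℕ) (x z : Bool) : Prop :=
  (∀ x' z', (x' ≠ x ∨ z' ≠ z) → ∃ r ∈ Tm x' z', 4 * g + r ∈ D) ∧
    ∀ r, ∃ s < 4, s ≠ r ∧ 4 * g + s ∈ D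

theorem Good.mono {D D' : Finset ℕ} {g : ℕ} {x z : Bool} (h : Good D g x z) (hD : D ⊆ D') :
    Good D' g x z :=
  ⟨fun x' z' h1 => (h.1 x' z' h1).imp fun _ h2 => ⟨h2.1, hD h2.2⟩,
    fun r => (h.2 r).imp fun _ h2 => ⟨h2.1, h2.2.1, hD h2.2.2⟩⟩

theorem good_of {D : Finset ℕ} {g a b : ℕ} {x z : Bool} (ha : 4 * g + a ∈ D) (hb : 4 * g + b ∈ D)
    (h1 : a < 4) (h2 : b < 4) (h3 : a ≠ b)
    (h : ∀ x' z', (x' ≠ x ∨ z' ≠ z) → a ∈ Tm x' z' ∨ b ∈ Tm x' z') : Good D g x z := by
  refine ⟨fun x' z' h4 => (h x' z' h4).elim (fun h5 => ⟨a, h5, ha⟩) fun h5 => ⟨b, h5, hb⟩,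
    fun r => ?_⟩
  by_cases e : a = r
  · exact ⟨b, h2, fun e' => h3 (e.trans e'.symm), hb⟩
  · exact ⟨a, h1, e, ha⟩

theorem hit_fs {D : Finset ℕ} {ξ ζ : ℕ → Bool} {l : PL} (h : Good D l.2.2 (ξ l.2.2) (ζ l.2.2))
    (hl : LT ξ ζ l) (β : Bool) : ∃ u ∈ fs l β, u < 4 * (l.2.2 + 1) ∧ u ∈ D := by
  obtain ⟨s, k, g⟩ := l
  obtain ⟨r, h1, h2⟩ := h.1 (bif k then β else !s) (bif k then !s else β) (by
    cases k
    · left
      simp only [LT, cond_false] at hl
      simp only [cond_false, hl]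
      cases s <;> simp
    · right
      simp only [LT, cond_true] at hl
      simp only [cond_true, hl]
      cases s <;> simp)
  refine ⟨4 * g + r, List.mem_map.2 ⟨r, h1, rfl⟩, ?_, h2⟩
  have := Tm_lt h1
  show 4 * g + r < 4 * (g + 1)
  omega

theorem dom_of_good {N M : ℕ} {φ : List PC} (hφ : Bdd N φ) {D : Finset ℕ} {ξ ζ : ℕ → Bool}
    (h : ∀ g < N, Good D g (ξ g) (ζ g)) (hs : ∀ c ∈ φ, CT ξ ζ c) :
    Dom (4 * N + (edges N φ).length * M) (adj (4 * N) M (edges N φ)) D := by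
  intro v hv
  by_cases h1 : v < 4 * N
  · obtain ⟨s, h2, h3, h4⟩ := (h (v / 4) (by omega)).2 (v % 4)
    refine Or.inr ⟨_, h4, ?_⟩
    have h5 : 4 * (v / 4) + s < 4 * N := by omega
    have h6 : v ≠ 4 * (v / 4) + s := by omega
    simp [adj, half, Nat.blt_eq, h1, h5, h6]
  · have hi : (v - 4 * N) / M < (edges N φ).length :=
      Nat.div_lt_of_lt_mul (by rw [mul_comm M]; omega)
    have he : (edges N φ).getD ((v - 4 * N) / M) [] ∈ edges N φ := by
      rw [List.getD_eq_getElem _ _ hi]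
      exact List.getElem_mem hi
    have : ∃ u ∈ (edges N φ).getD ((v - 4 * N) / M) [], u < 4 * N ∧ u ∈ D := by
      generalize (edges N φ).getD ((v - 4 * N) / M) [] = e at he
      rcases mem_edges.1 he with ⟨g, hg, r, -, rfl⟩ | ⟨c, hc, β₁, β₂, β₃, rfl⟩
      · obtain ⟨s, h2, h3, h4⟩ := (h g hg).2 r
        exact ⟨_, mem_tri.2 ⟨s, h2, h3, rfl⟩, by omega, h4⟩
      · obtain ⟨b1, b2, b3⟩ := hφ c hc
        rcases hs c hc with h2 | h2 | h2
        · obtain ⟨u, h3, h4, h5⟩ := hit_fs (h _ b1) h2 β₁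
          exact ⟨u, by simp [h3], by omega, h5⟩
        · obtain ⟨u, h3, h4, h5⟩ := hit_fs (h _ b2) h2 β₂
          exact ⟨u, by simp [h3], by omega, h5⟩
        · obtain ⟨u, h3, h4, h5⟩ := hit_fs (h _ b3) h2 β₃
          exact ⟨u, by simp [h3], by omega, h5⟩
    obtain ⟨u, h2, h3, h4⟩ := this
    refine Or.inr ⟨u, h4, ?_⟩
    have h6 : v ≠ u := by omega
    simp only [adj, half, Bool.and_eq_true, Bool.not_eq_eq_eq_not, Bool.not_true,
      beq_eq_false_iff_ne, Bool.or_eq_true, Nat.blt_eq, List.contains_iff_mem]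
    exact ⟨h6, Or.inr ⟨h3, Or.inr h2⟩⟩

theorem win_of_wform {N M : ℕ} {φ : List PC} (hφ : Bdd N φ) (h : WForm φ) :
    Win (4 * N + (edges N φ).length * M) (adj (4 * N) M (edges N φ)) ∅ ∅ := by
  obtain ⟨τ, hτ, hs⟩ := h
  have key : ∀ (k g : ℕ), g + k = N → ∀ (ζ : ℕ → Bool) (D S : Finset ℕ), (∀ v ∈ D, v < 4 * g) →
      (∀ v ∈ S, v < 4 * g) → (∀ h < g, Good D h (τ ζ h) (ζ h)) →
      Win (4 * N + (edges N φ).length * M) (adj (4 * N) M (edges N φ)) D S := by
    intro k
    induction k with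
    | zero =>
      intro g hg ζ D S _ _ h3
      exact Win.won (dom_of_good hφ (fun h hh => h3 h (by omega)) (hs ζ))
    | succ k ih =>
      intro g hg ζ D S h1 h2 h3
      have fin : ∀ (a b a' b' : ℕ) (z : Bool), a < 4 → b < 4 → a' < 4 → b' < 4 → a ≠ b →
          (∀ x' z', (x' ≠ τ ζ g ∨ z' ≠ z) → a ∈ Tm x' z' ∨ b ∈ Tm x' z') →
          Win (4 * N + (edges N φ).length * M) (adj (4 * N) M (edges N φ))
            (insert (4 * g + b) (insert (4 * g + a) D))
            (insert (4 * g + b') (insert (4 * g + a') S)) := by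
        intro a b a' b' z ha hb ha' hb' hab ht
        refine ih (g + 1) (by omega) (update ζ g z) _ _ ?_ ?_ fun h hh => ?_
        · intro v hv
          simp only [Finset.mem_insert] at hv
          rcases hv with rfl | rfl | hv
          · omega
          · omega
          · have := h1 v hv; omega
        · intro v hv
          simp only [Finset.mem_insert] at hv
          rcases hv with rfl | rfl | hv
          · omega
          · omega
          · have := h2 v hv; omega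
        · rw [hτ (update ζ g z) ζ h fun i hi => update_of_ne (by omega) _ _]
          by_cases e : h = g
          · subst e
            rw [update_self]
            exact good_of (a := a) (b := b) (by simp) (by simp) ha hb hab ht
          · rw [update_of_ne e]
            exact (h3 h (by omega)).mono fun v hv => by simp [hv]
      have leg1 : ∀ a b, a < 4 → b < 4 → a ≠ b →
          Legal (4 * N + (edges N φ).length * M) D S (4 * g + a) (4 * g + b) := by
        intro a b ha hb hab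
        refine ⟨by omega, by omega, by omega, fun h => ?_, fun h => ?_, fun h => ?_, fun h => ?_⟩
        · have := h1 _ h; omega
        · have := h2 _ h; omega
        · have := h1 _ h; omega
        · have := h2 _ h; omega
      have leg2 : ∀ a b a' b', a < 4 → b < 4 → a ≠ b → a ≠ a' → a ≠ b' → b ≠ a' → b ≠ b' →
          Legal (4 * N + (edges N φ).length * M) (insert (4 * g + a') D) (insert (4 * g + b') S)
            (4 * g + a) (4 * g + b) := by
        intro a b a' b' ha hb hab e1 e2 e3 e4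
        obtain ⟨l1, l2, l3, l4, l5, l6, l7⟩ := leg1 a b ha hb hab
        refine ⟨l1, l2, l3, ?_, ?_, ?_, ?_⟩ <;> simp only [Finset.mem_insert, not_or] <;>
          exact ⟨by omega, by assumption⟩
      cases hx : τ ζ g
      · rw [hx] at fin
        refine Win.offer _ _ (leg1 0 2 (by omega) (by omega) (by omega)) ?_ ?_
        · refine Win.offer _ _ (leg2 1 3 0 2 (by omega) (by omega) (by omega) (by omega)
            (by omega) (by omega) (by omega)) ?_ ?_
          · exact fin 0 1 2 3 false (by omega) (by omega) (by omega) (by omega) (by omega)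
              (by decide)
          · exact fin 0 3 2 1 false (by omega) (by omega) (by omega) (by omega) (by omega)
              (by decide)
        · refine Win.offer _ _ (leg2 1 3 2 0 (by omega) (by omega) (by omega) (by omega)
            (by omega) (by omega) (by omega)) ?_ ?_
          · exact fin 2 1 0 3 true (by omega) (by omega) (by omega) (by omega) (by omega)
              (by decide)
          · exact fin 2 3 0 1 true (by omega) (by omega) (by omega) (by omega) (by omega)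
              (by decide)
      · rw [hx] at fin
        refine Win.offer _ _ (leg1 0 1 (by omega) (by omega) (by omega)) ?_ ?_
        · refine Win.offer _ _ (leg2 2 3 0 1 (by omega) (by omega) (by omega) (by omega)
            (by omega) (by omega) (by omega)) ?_ ?_
          · exact fin 0 2 1 3 false (by omega) (by omega) (by omega) (by omega) (by omega)
              (by decide)
          · exact fin 0 3 1 2 false (by omega) (by omega) (by omega) (by omega) (by omega)
              (by decide)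
        · refine Win.offer _ _ (leg2 2 3 1 0 (by omega) (by omega) (by omega) (by omega)
            (by omega) (by omega) (by omega)) ?_ ?_
          · exact fin 1 2 0 3 true (by omega) (by omega) (by omega) (by omega) (by omega)
              (by decide)
          · exact fin 1 3 0 2 true (by omega) (by omega) (by omega) (by omega) (by omega)
              (by decide)
  exact key N 0 (by omega) (fun _ => false) ∅ ∅ (by simp) (by simp) (by simp)

end Pool.Agent.Lib.MP_2d136f_lc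
end

-- part Pool.Agent.Lib.MP_2d136f_lc.Staller
section

/-!
Staller's strategy: blocks, targets and a potential for the twins.
-/

set_option autoImplicit false

namespace Pool.Agent.Lib.MP_2d136f_lc

open Function Finset

/-- Number of vertices of `D` in block `g`. -/
def cnt (D : Finset ℕ) (g : ℕ) : ℕ := ((range 4).filter fun r => 4 * g + r ∈ D).card

theorem cnt_insert_ne {D : Finset ℕ} {g u : ℕ} (h : u / 4 ≠ g) : cnt (insert u D) g = cnt D g := by
  unfold cnt
  congr 1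
  refine filter_congr fun r hr => ?_
  have := mem_range.1 hr
  rw [mem_insert, or_iff_right (by omega)]

theorem cnt_insert_eq {D : Finset ℕ} {g u : ℕ} (h : u / 4 = g) (hu : u ∉ D) :
    cnt (insert u D) g = cnt D g + 1 := by
  unfold cnt
  have e : ((range 4).filter fun r => 4 * g + r ∈ insert u D) =
      insert (u % 4) ((range 4).filter fun r => 4 * g + r ∈ D) := by
    ext r
    simp only [mem_filter, mem_range, mem_insert]
    constructor
    · rintro ⟨h1, h2 | h2⟩
      · left; omega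
      · exact Or.inr ⟨h1, h2⟩
    · rintro (h1 | h1)
      · exact ⟨by omega, Or.inl (by omega)⟩
      · exact ⟨h1.1, Or.inr h1.2⟩
  rw [e, card_insert_of_notMem]
  simp only [mem_filter, not_and]
  intro _
  rwa [show 4 * g + u % 4 = u by omega]

theorem cnt_add_le {D S : Finset ℕ} (h : Disjoint D S) (g : ℕ) : cnt D g + cnt S g ≤ 4 := by
  unfold cnt
  rw [← card_union_of_disjoint]
  · exact (card_le_card (union_subset (filter_subset _ _) (filter_subset _ _))).trans (by simp)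
  · rw [disjoint_filter]
    exact fun r _ h1 h2 => disjoint_left.1 h h1 h2

/-- Staller is ahead in some block. -/
def Blk (N : ℕ) (D S : Finset ℕ) : Prop := ∃ g < N, cnt D g < cnt S g

/-- The regular situation. -/
def Nrm (N : ℕ) (J : Finset ℕ → (ℕ → Bool) → (ℕ → Bool) → Prop) (D S : Finset ℕ) : Prop :=
  ∃ P ξ ζ, J P ξ ζ ∧ ∀ g < N, cnt D g = cnt S g ∧
    (g ∉ P → ∀ r < 4, 4 * g + r ∉ D ∧ 4 * g + r ∉ S) ∧
    (g ∈ P → (∀ r < 4, 4 * g + r ∈ S → r ∈ Tm (ξ g) (ζ g)) ∧
      (∀ r < 4, 4 * g + r ∈ D → r ∉ Tm (ξ g) (ζ g)) ∧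
      (∃ r < 4, 4 * g + r ∈ S) ∧ ∃ r < 4, 4 * g + r ∈ D)

theorem loc1 : ∀ a < 4, ∀ b < 4, a ≠ b → ∃ x, ∀ z, (a ∈ Tm x z ↔ b ∉ Tm x z) := by
  intro a ha b hb
  interval_cases a <;> interval_cases b <;> decide

theorem loc2 : ∀ x z, ∀ a < 4, ∀ b < 4, ∀ s < 4, ∀ d < 4, a ≠ b → a ≠ s → b ≠ s → a ≠ d → b ≠ d →
    s ∈ Tm x z → d ∉ Tm x z → (a ∈ Tm x z ↔ b ∉ Tm x z) := by
  intro x z a ha b hb s hs d hd h1 h2 h3 h4 h5
  cases x <;> cases z <;> simp only [Tm, cond_true, cond_false, List.mem_cons, List.not_mem_nil,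
    or_false] <;> omega

section

variable {N : ℕ} {J : Finset ℕ → (ℕ → Bool) → (ℕ → Bool) → Prop} {D S : Finset ℕ} {u v : ℕ}

theorem Blk.step (h : Blk N D S) (hv : v ∉ D) (hu : u ∉ S)
    (huv : ∀ g < N, cnt D g < cnt S g → v / 4 = g → u / 4 = g) : Blk N (insert v D) (insert u S) := by
  obtain ⟨g, hg, h⟩ := h
  refine ⟨g, hg, ?_⟩
  by_cases e : v / 4 = g
  · rw [cnt_insert_eq e hv, cnt_insert_eq (huv g hg h e) hu]
    omega
  · rw [cnt_insert_ne e]
    by_cases e' : u / 4 = g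
    · rw [cnt_insert_eq e' hu]; omega
    · rwa [cnt_insert_ne e']

theorem Nrm.cross (h : Nrm N J D S) (hu : u ∉ S) (h1 : u / 4 < N) (h2 : v / 4 ≠ u / 4) :
    Blk N (insert v D) (insert u S) := by
  obtain ⟨P, ξ, ζ, -, h⟩ := h
  refine ⟨u / 4, h1, ?_⟩
  rw [cnt_insert_ne h2, cnt_insert_eq rfl hu, (h _ h1).1]
  omega

theorem Nrm.outer (h : Nrm N J D S) (h1 : 4 * N ≤ u) (h2 : 4 * N ≤ v) :
    Nrm N J (insert v D) (insert u S) := by
  obtain ⟨P, ξ, ζ, hJ, h⟩ := h
  refine ⟨P, ξ, ζ, hJ, fun g hg => ?_⟩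
  have e1 : ∀ r < 4, (4 * g + r ∈ insert v D ↔ 4 * g + r ∈ D) := fun r hr => by
    rw [mem_insert, or_iff_right (by omega)]
  have e2 : ∀ r < 4, (4 * g + r ∈ insert u S ↔ 4 * g + r ∈ S) := fun r hr => by
    rw [mem_insert, or_iff_right (by omega)]
  obtain ⟨a1, a2, a3⟩ := h g hg
  refine ⟨?_, fun hP r hr => ?_, fun hP => ⟨fun r hr => ?_, fun r hr => ?_, ?_, ?_⟩⟩
  · rw [cnt_insert_ne (by omega), cnt_insert_ne (by omega), a1]
  · rw [e1 r hr, e2 r hr]; exact a2 hP r hr
  · rw [e2 r hr]; exact (a3 hP).1 r hr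
  · rw [e1 r hr]; exact (a3 hP).2.1 r hr
  · exact (a3 hP).2.2.1.imp fun r h => ⟨h.1, mem_insert_of_mem h.2⟩
  · exact (a3 hP).2.2.2.imp fun r h => ⟨h.1, mem_insert_of_mem h.2⟩

theorem nrm_same {P P' : Finset ℕ} {ξ ζ ξ' ζ' : ℕ → Bool} (hJ : J P' ξ' ζ')
    (h : ∀ g < N, cnt D g = cnt S g ∧
      (g ∉ P → ∀ r < 4, 4 * g + r ∉ D ∧ 4 * g + r ∉ S) ∧
      (g ∈ P → (∀ r < 4, 4 * g + r ∈ S → r ∈ Tm (ξ g) (ζ g)) ∧
        (∀ r < 4, 4 * g + r ∈ D → r ∉ Tm (ξ g) (ζ g)) ∧
        (∃ r < 4, 4 * g + r ∈ S) ∧ ∃ r < 4, 4 * g + r ∈ D))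
    (hv : v ∉ D) (hu : u ∉ S) (e : v / 4 = u / 4) (hP : u / 4 ∈ P')
    (ho : ∀ g, g ≠ u / 4 → (g ∈ P' ↔ g ∈ P) ∧ ξ' g = ξ g ∧ ζ' g = ζ g)
    (t1 : u % 4 ∈ Tm (ξ' (u / 4)) (ζ' (u / 4))) (t2 : v % 4 ∉ Tm (ξ' (u / 4)) (ζ' (u / 4)))
    (t3 : ∀ r < 4, 4 * (u / 4) + r ∈ S → r ∈ Tm (ξ' (u / 4)) (ζ' (u / 4)))
    (t4 : ∀ r < 4, 4 * (u / 4) + r ∈ D → r ∉ Tm (ξ' (u / 4)) (ζ' (u / 4))) :
    Nrm N J (insert v D) (insert u S) := by
  refine ⟨P', ξ', ζ', hJ, fun g hg => ?_⟩
  obtain ⟨a1, a2, a3⟩ := h g hg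
  by_cases hgu : g = u / 4
  · subst hgu
    refine ⟨?_, fun h => absurd hP h, fun _ => ⟨fun r hr h => ?_, fun r hr h => ?_, ?_, ?_⟩⟩
    · rw [cnt_insert_eq e hv, cnt_insert_eq rfl hu, a1]
    · rcases mem_insert.1 h with h | h
      · rwa [show r = u % 4 by omega]
      · exact t3 r hr h
    · rcases mem_insert.1 h with h | h
      · rwa [show r = v % 4 by omega]
      · exact t4 r hr h
    · exact ⟨u % 4, by omega, mem_insert.2 (Or.inl (by omega))⟩
    · exact ⟨v % 4, by omega, mem_insert.2 (Or.inl (by omega))⟩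
  · obtain ⟨b1, b2, b3⟩ := ho g hgu
    have e1 : ∀ r < 4, (4 * g + r ∈ insert v D ↔ 4 * g + r ∈ D) := fun r hr => by
      rw [mem_insert, or_iff_right (by omega)]
    have e2 : ∀ r < 4, (4 * g + r ∈ insert u S ↔ 4 * g + r ∈ S) := fun r hr => by
      rw [mem_insert, or_iff_right (by omega)]
    rw [b1, b2, b3]
    refine ⟨?_, fun hP r hr => ?_, fun hP => ⟨fun r hr => ?_, fun r hr => ?_, ?_, ?_⟩⟩
    · rw [cnt_insert_ne (by omega), cnt_insert_ne (by omega), a1]
    · rw [e1 r hr, e2 r hr]; exact a2 hP r hr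
    · rw [e2 r hr]; exact (a3 hP).1 r hr
    · rw [e1 r hr]; exact (a3 hP).2.1 r hr
    · exact (a3 hP).2.2.1.imp fun r h => ⟨h.1, mem_insert_of_mem h.2⟩
    · exact (a3 hP).2.2.2.imp fun r h => ⟨h.1, mem_insert_of_mem h.2⟩

theorem Nrm.inner {n : ℕ}
    (hJ : ∀ P ξ ζ g x, J P ξ ζ → g ∉ P → ∃ z, J (insert g P) (update ξ g x) (update ζ g z))
    (h : Nrm N J D S) (hl : Legal n D S u v) (h1 : u / 4 < N) (e : v / 4 = u / 4) :
    Nrm N J (insert u D) (insert v S) ∨ Nrm N J (insert v D) (insert u S) := by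
  obtain ⟨P, ξ, ζ, hP, h⟩ := h
  obtain ⟨-, -, l3, l4, l5, l6, l7⟩ := hl
  obtain ⟨a1, a2, a3⟩ := h _ h1
  have main : ∀ (P' : Finset ℕ) (ξ' ζ' : ℕ → Bool), J P' ξ' ζ' → u / 4 ∈ P' →
      (∀ g, g ≠ u / 4 → (g ∈ P' ↔ g ∈ P) ∧ ξ' g = ξ g ∧ ζ' g = ζ g) →
      (u % 4 ∈ Tm (ξ' (u / 4)) (ζ' (u / 4)) ↔ v % 4 ∉ Tm (ξ' (u / 4)) (ζ' (u / 4))) →
      (∀ r < 4, 4 * (u / 4) + r ∈ S → r ∈ Tm (ξ' (u / 4)) (ζ' (u / 4))) →
      (∀ r < 4, 4 * (u / 4) + r ∈ D → r ∉ Tm (ξ' (u / 4)) (ζ' (u / 4))) →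
      Nrm N J (insert u D) (insert v S) ∨ Nrm N J (insert v D) (insert u S) := by
    intro P' ξ' ζ' b1 b2 b3 b4 b5 b6
    by_cases t : u % 4 ∈ Tm (ξ' (u / 4)) (ζ' (u / 4))
    · exact Or.inr (nrm_same b1 h l6 l5 e b2 b3 t (b4.1 t) b5 b6)
    · have t' : v % 4 ∈ Tm (ξ' (u / 4)) (ζ' (u / 4)) := by
        by_contra t'
        exact t (b4.2 t')
      rw [← e] at b2 b3 t t' b5 b6
      exact Or.inl (nrm_same b1 h l4 l7 e.symm b2 b3 t' t b5 b6)
  by_cases hg : u / 4 ∈ P
  · obtain ⟨c1, c2, ⟨s, c3, c4⟩, ⟨d, c5, c6⟩⟩ := a3 hg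
    refine main P ξ ζ hP hg (fun g _ => ⟨Iff.rfl, rfl, rfl⟩) ?_ c1 c2
    refine loc2 _ _ _ (by omega) _ (by omega) s c3 d c5 (by omega) ?_ ?_ ?_ ?_ (c1 s c3 c4)
      (c2 d c5 c6)
    · intro e'
      exact l5 (by rwa [show 4 * (u / 4) + s = u by omega] at c4)
    · intro e'
      exact l7 (by rwa [show 4 * (u / 4) + s = v by omega] at c4)
    · intro e'
      exact l4 (by rwa [show 4 * (u / 4) + d = u by omega] at c6)
    · intro e'
      exact l6 (by rwa [show 4 * (u / 4) + d = v by omega] at c6)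
  · obtain ⟨x, hx⟩ := loc1 (u % 4) (by omega) (v % 4) (by omega) (by omega)
    obtain ⟨z, hz⟩ := hJ P ξ ζ (u / 4) x hP hg
    refine main _ _ _ hz (mem_insert_self _ _) (fun g hg => ⟨?_, update_of_ne hg _ _,
      update_of_ne hg _ _⟩) ?_ (fun r hr h => absurd h (a2 hg r hr).2)
      (fun r hr h => absurd h (a2 hg r hr).1)
    · rw [mem_insert, or_iff_right hg]
    · rw [update_self, update_self]
      exact hx z

end

theorem miss_fs {D : Finset ℕ} {ξ ζ : ℕ → Bool} {l : PL}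
    (h : ∀ r < 4, 4 * l.2.2 + r ∈ D → r ∉ Tm (ξ l.2.2) (ζ l.2.2)) (hl : ¬ LT ξ ζ l) :
    ∃ β, ∀ u ∈ fs l β, u ∉ D := by
  obtain ⟨s, k, g⟩ := l
  refine ⟨bif k then ξ g else ζ g, fun u hu hD => ?_⟩
  obtain ⟨r, h1, rfl⟩ := List.mem_map.1 hu
  refine h r (Tm_lt h1) hD ?_
  cases k
  · simp only [LT, cond_false] at hl h1
    rwa [show ξ g = !s by cases s <;> simpa using hl]
  · simp only [LT, cond_true] at hl h1
    rwa [show ζ g = !s by cases s <;> simpa using hl]

/-- Weight of the edge number `i`. -/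
def wt (X M : ℕ) (D S : Finset ℕ) (i : ℕ) : ℕ :=
  if ∃ w ∈ S, X ≤ w ∧ (w - X) / M = i then 0
  else 2 ^ (D.filter fun w => X ≤ w ∧ (w - X) / M = i).card

theorem wt_le (X M : ℕ) (D S : Finset ℕ) (u v i : ℕ) :
    wt X M (insert v D) (insert u S) i ≤
      if X ≤ u ∧ (u - X) / M = i then 0
      else wt X M D S i + if X ≤ v ∧ (v - X) / M = i then wt X M D S i else 0 := by
  unfold wt
  by_cases h1 : X ≤ u ∧ (u - X) / M = i
  · rw [if_pos h1, if_pos ⟨u, mem_insert_self _ _, h1⟩]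
  · rw [if_neg h1]
    by_cases h2 : ∃ w ∈ S, X ≤ w ∧ (w - X) / M = i
    · rw [if_pos (h2.imp fun w h => ⟨mem_insert_of_mem h.1, h.2⟩)]
      exact Nat.zero_le _
    · rw [if_neg h2]
      refine (ite_le_sup _ _ _).trans (sup_le (Nat.zero_le _) ?_)
      rw [filter_insert]
      by_cases h3 : X ≤ v ∧ (v - X) / M = i
      · rw [if_pos h3, if_pos h3]
        refine (Nat.pow_le_pow_right (by omega) (card_insert_le _ _)).trans ?_
        omega
      · rw [if_neg h3, if_neg h3]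
        omega

/-- The potential inequality. -/
def Pot (X M K : ℕ) (D S : Finset ℕ) : Prop :=
  ∑ i ∈ range K, wt X M D S i ≤ K * 2 ^ (S.filter fun w => w < X).card

theorem Pot.low {X M K : ℕ} {D S : Finset ℕ} {u : ℕ} (h : Pot X M K D S) (v : ℕ) (hu : u ∉ S)
    (h1 : u < X) : Pot X M K (insert v D) (insert u S) := by
  unfold Pot at *
  rw [filter_insert, if_pos h1, card_insert_of_notMem (by simp [hu]), pow_succ, ← mul_assoc]
  refine le_trans (sum_le_sum (g := fun i => wt X M D S i * 2) fun i _ => ?_) ?_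
  · refine (wt_le X M D S u v i).trans ?_
    split_ifs <;> omega
  · rw [← sum_mul]
    omega

theorem Pot.high {X M K : ℕ} {D S : Finset ℕ} {u v : ℕ} (h : Pot X M K D S) (h1 : X ≤ u)
    (h2 : (u - X) / M < K) (h3 : wt X M D S ((v - X) / M) ≤ wt X M D S ((u - X) / M)) :
    Pot X M K (insert v D) (insert u S) := by
  unfold Pot at *
  rw [filter_insert, if_neg (by omega)]
  refine le_trans ?_ h
  have hm := mem_range.2 h2
  rw [← add_sum_erase _ _ hm, ← add_sum_erase _ (wt X M D S) hm]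
  have e1 := wt_le X M D S u v ((u - X) / M)
  rw [if_pos ⟨h1, rfl⟩] at e1
  have e2 : ∑ i ∈ (range K).erase ((u - X) / M), wt X M (insert v D) (insert u S) i ≤
      ∑ i ∈ (range K).erase ((u - X) / M), (wt X M D S i +
        if (v - X) / M = i then wt X M D S ((v - X) / M) else 0) := by
    refine sum_le_sum fun i _ => (wt_le X M D S u v i).trans ?_
    by_cases e : (v - X) / M = i
    · subst e
      split_ifs <;> omega
    · split_ifs <;> omega
  rw [sum_add_distrib, sum_ite_eq] at e2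
  split_ifs at e2 <;> omega

theorem Pot.free {X M K : ℕ} {D S : Finset ℕ} (h : Pot X M K D S) (hd : Disjoint D S)
    (hM : X + K ≤ M) {i : ℕ} (hi : i < K) : ∃ j < M, X + i * M + j ∉ D := by
  by_contra hc
  push Not at hc
  have hM0 : 0 < M := by omega
  have h1 : 2 ^ M ≤ wt X M D S i := by
    unfold wt
    rw [if_neg]
    · refine Nat.pow_le_pow_right (by omega) ?_
      refine (card_range M).symm.le.trans ?_
      refine card_le_card_of_injOn (fun j => X + i * M + j) (fun j hj => ?_) fun a _ b _ e => ?_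
      · have hj' : j < M := by simpa using hj
        rw [mem_coe, mem_filter]
        beta_reduce
        refine ⟨hc j hj', by omega, ?_⟩
        rw [show X + i * M + j - X = j + i * M by omega, Nat.add_mul_div_right _ _ hM0,
          Nat.div_eq_of_lt hj', zero_add]
      · simpa using e
    · rintro ⟨w, h1, h2, h3⟩
      refine disjoint_left.1 hd (hc ((w - X) % M) (Nat.mod_lt _ hM0)) ?_
      have := Nat.div_add_mod' (w - X) M
      rw [h3] at this
      rwa [show X + i * M + (w - X) % M = w by omega]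
  have h2 : wt X M D S i ≤ ∑ i ∈ range K, wt X M D S i :=
    single_le_sum (f := wt X M D S) (fun _ _ => Nat.zero_le _) (mem_range.2 hi)
  have h3 : (S.filter fun w => w < X).card ≤ X := by
    refine (card_le_card (t := range X) fun w hw => ?_).trans (by simp)
    exact mem_range.2 (mem_filter.1 hw).2
  have h4 : K * 2 ^ (S.filter fun w => w < X).card ≤ K * 2 ^ X :=
    Nat.mul_le_mul_left _ (Nat.pow_le_pow_right (by omega) h3)
  have h5 : K * 2 ^ X < 2 ^ K * 2 ^ X :=
    Nat.mul_lt_mul_of_pos_right Nat.lt_two_pow_self (by positivity)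
  have h6 : 2 ^ K * 2 ^ X ≤ 2 ^ M := by
    rw [← pow_add]
    exact Nat.pow_le_pow_right (by omega) (by omega)
  unfold Pot at h
  omega

theorem not_win_of_cform {N M : ℕ} {φ : List PC} (hφ : Bdd N φ) (h : CForm N φ)
    (hM : 4 * N + (edges N φ).length ≤ M) :
    ¬ Win (4 * N + (edges N φ).length * M) (adj (4 * N) M (edges N φ)) ∅ ∅ := by
  obtain ⟨J, ξ₀, ζ₀, h0, hJ, hend⟩ := h
  refine not_win (fun D S => Disjoint D S ∧ (Blk N D S ∨ Nrm N J D S) ∧
    Pot (4 * N) M (edges N φ).length D S) ?_ ?_ ⟨by simp, Or.inr ⟨∅, ξ₀, ζ₀, h0, ?_⟩, ?_⟩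
  · have dj : ∀ {D S : Finset ℕ} {u v n : ℕ}, Disjoint D S → Legal n D S u v →
        Disjoint (insert v D) (insert u S) := by
      intro D S u v n hd hl
      obtain ⟨-, -, l3, l4, l5, l6, l7⟩ := hl
      simp [hd, l3, l4, l7]
    have mixed : ∀ {D S : Finset ℕ} {u v n : ℕ}, (Blk N D S ∨ Nrm N J D S) → Legal n D S u v →
        u < 4 * N → 4 * N ≤ v → Blk N (insert v D) (insert u S) := by
      intro D S u v n h hl h1 h2
      rcases h with h | h
      · exact h.step hl.2.2.2.2.2.1 hl.2.2.2.2.1 fun g hg _ e => by omega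
      · exact h.cross hl.2.2.2.2.1 (by omega) (by omega)
    have outer : ∀ {D S : Finset ℕ} {u v n : ℕ}, (Blk N D S ∨ Nrm N J D S) → Legal n D S u v →
        4 * N ≤ u → 4 * N ≤ v →
        (Blk N (insert v D) (insert u S) ∨ Nrm N J (insert v D) (insert u S)) := by
      intro D S u v n h hl h1 h2
      rcases h with h | h
      · exact Or.inl (h.step hl.2.2.2.2.2.1 hl.2.2.2.2.1 fun g hg _ e => by omega)
      · exact Or.inr (h.outer h1 h2)
    rintro D S u v ⟨hd, hH, hP⟩ hl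
    have d1 := dj hd hl
    have d2 := dj hd hl.symm
    by_cases hu : u < 4 * N <;> by_cases hv : v < 4 * N
    · have p1 := hP.low v hl.2.2.2.2.1 hu
      have p2 := hP.low u hl.2.2.2.2.2.2 hv
      rcases hH with ⟨g, hg, hH⟩ | hH
      · by_cases e : u / 4 = g
        · refine Or.inr ⟨d1, Or.inl ⟨g, hg, ?_⟩, p1⟩
          rw [cnt_insert_eq e hl.2.2.2.2.1]
          by_cases e' : v / 4 = g
          · rw [cnt_insert_eq e' hl.2.2.2.2.2.1]; omega
          · rw [cnt_insert_ne e']; omega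
        · refine Or.inl ⟨d2, Or.inl ⟨g, hg, ?_⟩, p2⟩
          rw [cnt_insert_ne e]
          by_cases e' : v / 4 = g
          · rw [cnt_insert_eq e' hl.2.2.2.2.2.2]; omega
          · rwa [cnt_insert_ne e']
      · by_cases e : v / 4 = u / 4
        · exact (hH.inner hJ hl (by omega) e).imp (fun h => ⟨d2, Or.inr h, p2⟩)
            fun h => ⟨d1, Or.inr h, p1⟩
        · exact Or.inr ⟨d1, Or.inl (hH.cross hl.2.2.2.2.1 (by omega) e), p1⟩
    · exact Or.inr ⟨d1, Or.inl (mixed hH hl hu (by omega)), hP.low v hl.2.2.2.2.1 hu⟩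
    · exact Or.inl ⟨d2, Or.inl (mixed hH hl.symm hv (by omega)), hP.low u hl.2.2.2.2.2.2 hv⟩
    · have i1 : (u - 4 * N) / M < (edges N φ).length :=
        Nat.div_lt_of_lt_mul (by have := hl.1; rw [mul_comm M]; omega)
      have i2 : (v - 4 * N) / M < (edges N φ).length :=
        Nat.div_lt_of_lt_mul (by have := hl.2.1; rw [mul_comm M]; omega)
      rcases le_total (wt (4 * N) M D S ((v - 4 * N) / M)) (wt (4 * N) M D S ((u - 4 * N) / M))
        with e | e
      · exact Or.inr ⟨d1, outer hH hl (by omega) (by omega), hP.high (by omega) i1 e⟩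
      · exact Or.inl ⟨d2, outer hH hl.symm (by omega) (by omega), hP.high (by omega) i2 e⟩
  · rintro D S ⟨hd, hH, hP⟩ hl hdom
    have : ∃ e ∈ edges N φ, ∀ u ∈ e, u ∉ D := by
      rcases hH with ⟨g, hg, hH⟩ | ⟨P, ξ, ζ, hP, hH⟩
      · have h1 := cnt_add_le hd g
        have h2 : cnt D g ≤ 1 := by omega
        obtain ⟨r, hr, h3⟩ : ∃ r < 4, ∀ s < 4, s ≠ r → 4 * g + s ∉ D := by
          by_cases h3 : ∃ r < 4, 4 * g + r ∈ D
          · obtain ⟨r, hr, h3⟩ := h3
            refine ⟨r, hr, fun s hs e h4 => e ?_⟩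
            exact card_le_one.1 h2 s (by simp [hs, h4]) r (by simp [hr, h3])
          · exact ⟨0, by omega, fun s hs _ h4 => h3 ⟨s, hs, h4⟩⟩
        refine ⟨tri g r, mem_edges.2 (Or.inl ⟨g, hg, r, hr, rfl⟩), fun u hu => ?_⟩
        obtain ⟨s, h4, h5, rfl⟩ := mem_tri.1 hu
        exact h3 s h4 h5
      · have hall : ∀ g < N, g ∈ P := by
          intro g hg
          by_contra hc
          have h1 := (hH g hg).2.1 hc
          exact hl (4 * g + 0) (4 * g + 1) ⟨by omega, by omega, by omega, (h1 0 (by omega)).1,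
            (h1 0 (by omega)).2, (h1 1 (by omega)).1, (h1 1 (by omega)).2⟩
        obtain ⟨c, hc, hn⟩ := hend P ξ ζ hP hall
        obtain ⟨b1, b2, b3⟩ := hφ c hc
        simp only [CT, not_or] at hn
        obtain ⟨β₁, k1⟩ := miss_fs ((hH _ b1).2.2 (hall _ b1)).2.1 hn.1
        obtain ⟨β₂, k2⟩ := miss_fs ((hH _ b2).2.2 (hall _ b2)).2.1 hn.2.1
        obtain ⟨β₃, k3⟩ := miss_fs ((hH _ b3).2.2 (hall _ b3)).2.1 hn.2.2
        refine ⟨_, mem_edges.2 (Or.inr ⟨c, hc, β₁, β₂, β₃, rfl⟩), fun u hu => ?_⟩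
        simp only [List.mem_append] at hu
        rcases hu with hu | hu | hu
        · exact k1 u hu
        · exact k2 u hu
        · exact k3 u hu
    obtain ⟨e, he, hm⟩ := this
    obtain ⟨i, hi, rfl⟩ := List.getElem_of_mem he
    obtain ⟨j, hj, hw⟩ := hP.free hd hM hi
    have hlt : 4 * N + i * M + j < 4 * N + (edges N φ).length * M := by
      have := Nat.mul_le_mul_right M (Nat.succ_le_of_lt hi)
      rw [Nat.succ_mul] at this
      omega
    rcases hdom _ hlt with h1 | ⟨u, h1, h2⟩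
    · exact hw h1
    · simp only [adj, half, Bool.and_eq_true, Bool.or_eq_true, Nat.blt_eq,
        List.contains_iff_mem] at h2
      rcases h2.2 with h3 | ⟨-, h3 | h3⟩
      · omega
      · omega
      · rw [show 4 * N + i * M + j - 4 * N = j + i * M by omega,
          Nat.add_mul_div_right _ _ (by omega), Nat.div_eq_of_lt hj, zero_add,
          List.getD_eq_getElem _ _ hi] at h3
        exact hm u h3 h1
  · intro g _
    simp [cnt]
  · simp [Pot, wt]

end Pool.Agent.Lib.MP_2d136f_lc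
end
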