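import Pool.Agent.Lib.MP_2d136f_lc.Echo
import Pool.Agent.Shared.NP.CookLevin
import Pool.Agent.Lib.MP_2d136f_lc.Defs
import Pool.Agent.Lib.MP_2d136f_lc.Staller
import Pool.Agent.Shared.PolyTime.Graph

-- part Pool.Agent.Lib.MP_2d136f_lc.Sav
section

/-!
The midpoint game of a space-bounded machine as an ordered formula.
-/

set_option autoImplicit false

namespace Pool.Agent.Lib.MP_2d136f_lc

open Function Pool.Agent.Shared.PolyTime Pool.Agent.Shared.NP

/-- Index of entry `t` of table `κ` at stage `s`. -/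
def jx (W s κ t : ℕ) : ℕ := (4 * s + κ) * W + t

/-- Unit clauses. -/
def unitP (b : Bool) (v : ℕ) : PC := ((b, false, v), (b, false, v), (b, false, v))

/-- Selection clauses. -/
def selC (W s t : ℕ) : List PC :=
  [((false, true, jx W s 3 0), (false, false, jx W s 0 t), (true, false, jx W (s + 1) 0 t)),
   ((true, true, jx W s 3 0), (false, false, jx W s 2 t), (true, false, jx W (s + 1) 0 t)),
   ((false, true, jx W s 3 0), (false, false, jx W (s + 1) 1 t), (true, false, jx W s 2 t)),
   ((true, true, jx W s 3 0), (false, false, jx W (s + 1) 1 t), (true, false, jx W s 1 t))]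

/-- Step clauses. -/
def ruleP (W C S j : ℕ) (r : RuleC) : PC :=
  ((false, false, jx W W 0 (min (r.1.1 * j + r.1.2.1) S * C + r.1.2.2)),
   (false, false, jx W W 0 (min (r.2.1.1 * j + r.2.1.2.1) S * C + r.2.1.2.2)),
   (true, false, jx W W 1 (min (r.2.2.1 * j + r.2.2.2.1) S * C + r.2.2.2.2)))

/-- The input atom at position `j`. -/
def inA (cT cF cN : ℕ) (x : List Bool) (j : ℕ) : ℕ :=
  bif Nat.blt j x.length then (bif x.getD j false then cT else cF) else cN

/-- The formula. -/
def savF (C : ℕ) (rules : List RuleC) (base : List ℕ) (cT cF cN : ℕ) (rej : List ℕ)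
    (x : List Bool) (S W : ℕ) : List PC :=
  (List.range (S + 1)).flatMap (fun j => (inA cT cF cN x j :: base).map fun a =>
    unitP true (jx W 0 0 (j * C + a))) ++
  (rej.map (fun a => unitP false (jx W 0 1 (0 * C + a))) ++
  ((List.range W).flatMap (fun s => (List.range W).flatMap fun t => selC W s t) ++
  (List.range (S + 1)).flatMap (fun j => rules.map (ruleP W C S j))))

theorem savF_pf (C : ℕ) (rules : List RuleC) (base : List ℕ) (cT cF cN : ℕ) (rej : List ℕ) :
    PF (fun p : List Bool × ℕ => savF C rules base cT cF cN rej p.1 p.2 ((p.2 + 1) * C)) := by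
  unfold savF ruleP selC inA unitP jx
  fun_prop

theorem jx_lt {W s κ t : ℕ} (h1 : s ≤ W) (h2 : κ < 4) (h3 : t < W) :
    jx W s κ t < 4 * (W + 1) * W := by
  unfold jx
  have : (4 * s + κ + 1) * W ≤ 4 * (W + 1) * W := Nat.mul_le_mul_right _ (by omega)
  rw [Nat.add_mul _ 1] at this
  omega

theorem jx_div {W s κ t : ℕ} (h3 : t < W) : jx W s κ t / W = 4 * s + κ := by
  unfold jx
  rw [add_comm, Nat.add_mul_div_right _ _ (by omega), Nat.div_eq_of_lt h3, zero_add]

theorem jx_mod {W s κ t : ℕ} (h3 : t < W) : jx W s κ t % W = t := by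
  unfold jx
  rw [add_comm, Nat.add_mul_mod_self_right, Nat.mod_eq_of_lt h3]

theorem jx_lt_of {W s κ t g : ℕ} (h3 : t < W) (h : 4 * s + κ < g / W) : jx W s κ t < g := by
  have := (Nat.le_div_iff_mul_le (by omega : 0 < W)).1 (Nat.succ_le_of_lt h)
  rw [Nat.succ_mul] at this
  unfold jx
  omega

theorem cell_lt {C S j a : ℕ} (hj : j ≤ S) (ha : a < C) : j * C + a < (S + 1) * C := by
  have := Nat.mul_le_mul_right C hj
  rw [Nat.add_mul]
  omega

theorem holds_min {Z K A : Type} {c : Z × (K → List A)} {S p : ℕ} (h : ∀ k, (c.2 k).length ≤ S)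
    (a : Atom Z K A) : holds c (min p S) a ↔ holds c p a := by
  rcases le_total p S with e | e
  · rw [min_eq_left e]
  · rw [min_eq_right e]
    rcases a with z | ⟨k, o⟩
    · rfl
    · simp only [holds]
      rw [List.getElem?_eq_none (h k), List.getElem?_eq_none ((h k).trans e)]

theorem periodic {Z K A : Type} [Fintype Z] [Fintype K] [Fintype A]
    (f : Z × (K → List A) → Z × (K → List A)) (c : Z × (K → List A)) (S T : ℕ)
    (h : ∀ t k, ((f^[t] c).2 k).length ≤ S) (hT : f (f^[T] c) = f^[T] c) :
    f^[2 ^ ((S + 1) * Fintype.card (Atom Z K A))] c = f^[T] c := by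
  classical
  obtain ⟨t₁, t₂, hne, he⟩ := Fintype.exists_ne_map_eq_of_card_lt
    (fun (t : Fin (2 ^ ((S + 1) * Fintype.card (Atom Z K A)) + 1))
      (q : Fin (S + 1) × Atom Z K A) => decide (holds (f^[t] c) q.1 q.2)) (by simp)
  have key : ∀ t₁ t₂ : ℕ, t₁ < t₂ → t₂ ≤ 2 ^ ((S + 1) * Fintype.card (Atom Z K A)) →
      f^[t₁] c = f^[t₂] c → f^[2 ^ ((S + 1) * Fintype.card (Atom Z K A))] c = f^[T] c := by
    intro t₁ t₂ h1 h2 h3
    obtain ⟨d, rfl⟩ := Nat.exists_eq_add_of_lt h1
    have p1 : IsPeriodicPt f (d + 1) (f^[t₁] c) := by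
      unfold IsPeriodicPt IsFixedPt
      rw [← iterate_add_apply, h3]
      congr 1
      omega
    have p2 : f^[(d + 1) * T] (f^[t₁] c) = f^[t₁] c := p1.mul_const T
    have p3 : f^[t₁] c = f^[T] c := by
      rw [← p2, ← iterate_add_apply, show (d + 1) * T + t₁ = (d * T + t₁) + T by ring,
        iterate_add_apply, iterate_fixed hT]
    obtain ⟨e, he⟩ := Nat.exists_eq_add_of_le' (show t₁ ≤ _ from (by omega : t₁ ≤ t₁ + d + 1).trans h2)
    rw [he, iterate_add_apply, p3, iterate_fixed hT]
  have heq : f^[t₁] c = f^[t₂] c := by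
    have h1 : ∀ j ≤ S, ∀ a, holds (f^[t₁] c) j a ↔ holds (f^[t₂] c) j a := fun j hj a => by
      simpa using congrFun he (⟨j, by omega⟩, a)
    refine Prod.ext ((h1 0 (by omega) (Sum.inl _)).2 rfl) (funext fun k => ?_)
    refine List.ext_getElem? fun j => ?_
    by_cases hj : j ≤ S
    · exact (h1 j hj (Sum.inr (k, _))).2 rfl
    · rw [List.getElem?_eq_none ((h _ k).trans (by omega)),
        List.getElem?_eq_none ((h _ k).trans (by omega))]
  rcases lt_or_gt_of_ne (fun e : t₁.val = t₂.val => hne (Fin.ext e)) with e | e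
  · exact key _ _ e (by have := t₂.2; omega) heq
  · exact key _ _ e (by have := t₁.2; omega) heq.symm

/-- Starting times. -/
def start (W : ℕ) (b : ℕ → ℕ → Bool) : ℕ → ℕ
  | 0 => 0
  | s + 1 => start W b s + bif b s (start W b s) then 0 else 2 ^ (W - (s + 1))

theorem start_congr {W : ℕ} {b b' : ℕ → ℕ → Bool} :
    ∀ s, (∀ i < s, b i = b' i) → start W b s = start W b' s
  | 0, _ => rfl
  | s + 1, h => by
    rw [start, start, start_congr s fun i hi => h i (by omega), h s (by omega)]

theorem savitch {Z K A : Type} [DecidableEq K] [Fintype Z] [Fintype K] [Fintype A] (M : AM Z K A)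
    (z₀ : Z) (k₀ k₁ : K) (ι : Bool → A) (Bad : Option A → Prop) :
    ∃ (ν : ℕ → ℕ) (Φ : List Bool × ℕ → List PC), PF ν ∧ PF Φ ∧ ∀ (x : List Bool) (S T : ℕ),
      (∀ t k, ((M.step^[t] (initC z₀ k₀ ι x)).2 k).length ≤ S) →
      M.step (M.step^[T] (initC z₀ k₀ ι x)) = M.step^[T] (initC z₀ k₀ ι x) →
      Bdd (ν S) (Φ (x, S)) ∧
      (¬ Bad (((M.step^[T] (initC z₀ k₀ ι x)).2 k₁)[0]?) → WForm (Φ (x, S))) ∧
      (Bad (((M.step^[T] (initC z₀ k₀ ι x)).2 k₁)[0]?) → SForm (Φ (x, S))) := by
  classical
  let C := Fintype.card (Atom Z K A)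
  let cd : Atom Z K A → ℕ := fun a => (Fintype.equivFin (Atom Z K A) a).val
  have cd_lt : ∀ a, cd a < C := fun a => (Fintype.equivFin (Atom Z K A) a).2
  have cd_inj : ∀ a b, cd a = cd b → a = b := fun a b h =>
    (Fintype.equivFin (Atom Z K A)).injective (Fin.ext h)
  let cl : RLit Z K A → ℕ × ℕ × ℕ := fun p => (p.1.toNat, p.2.1.toNat, cd p.2.2)
  let rules : List RuleC := (Finset.univ.filter (Valid M)).toList.map
    fun r => (cl r.1, cl r.2.1, cl r.2.2)
  let base : List ℕ := (Finset.univ.filter fun a : Atom Z K A =>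
    ∀ w j, holds (initC z₀ k₀ ι w) j a).toList.map cd
  let rej : List ℕ := (Finset.univ.filter Bad).toList.map fun o => cd (Sum.inr (k₁, o))
  let aT : Atom Z K A := Sum.inr (k₀, some (ι true))
  let aF : Atom Z K A := Sum.inr (k₀, some (ι false))
  let aN : Atom Z K A := Sum.inr (k₀, none)
  refine ⟨fun S => 4 * ((S + 1) * C + 1) * ((S + 1) * C), _, by fun_prop,
    savF_pf C rules base (cd aT) (cd aF) (cd aN) rej, fun x S T hS hT => ?_⟩
  have hper := periodic M.step _ S T hS hT
  change M.step^[2 ^ ((S + 1) * C)] _ = _ at hper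
  have hlt : ∀ j ≤ S, ∀ a, j * C + cd a < (S + 1) * C := fun j hj a => cell_lt hj (cd_lt a)
  beta_reduce
  generalize (S + 1) * C = W at hper hlt ⊢
  have hin : ∀ j, inA (cd aT) (cd aF) (cd aN) x j = cd (Sum.inr (k₀, (x[j]?).map ι)) := by
    intro j
    by_cases hx : j < x.length
    · simp only [inA, Nat.blt_eq, Bool.cond_eq_ite, hx, if_true, List.getD_eq_getElem?_getD,
        List.getElem?_eq_getElem hx, Option.getD_some]
      cases x[j] <;> rfl
    · simp only [inA, Nat.blt_eq, Bool.cond_eq_ite, hx, if_false,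
        List.getElem?_eq_none (Nat.le_of_not_lt hx)]
      rfl
  have hmem : ∀ c, c ∈ savF C rules base (cd aT) (cd aF) (cd aN) rej x S W ↔
      (∃ j ≤ S, ∃ a, holds (initC z₀ k₀ ι x) j a ∧ c = unitP true (jx W 0 0 (j * C + cd a))) ∨
      (∃ o, Bad o ∧ c = unitP false (jx W 0 1 (0 * C + cd (Sum.inr (k₁, o))))) ∨
      (∃ s < W, ∃ t < W, c ∈ selC W s t) ∨
      ∃ j ≤ S, ∃ r, Valid M r ∧ c = ruleP W C S j (cl r.1, cl r.2.1, cl r.2.2) := by
    intro c
    simp only [savF, List.mem_append, List.mem_flatMap, List.mem_range, List.mem_map]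
    refine or_congr (exists_congr fun j => and_congr Nat.lt_succ_iff ⟨?_, ?_⟩)
      (or_congr ⟨?_, ?_⟩ (or_congr Iff.rfl
        (exists_congr fun j => and_congr Nat.lt_succ_iff ⟨?_, ?_⟩)))
    · rintro ⟨a, h1, rfl⟩
      rcases List.mem_cons.1 h1 with rfl | h1
      · exact ⟨Sum.inr (k₀, (x[j]?).map ι), by simp [holds, initC], by rw [hin]⟩
      · obtain ⟨a, h2, rfl⟩ := List.mem_map.1 h1
        exact ⟨a, (by simpa using h2 : ∀ w j, holds (initC z₀ k₀ ι w) j a) x j, rfl⟩
    · rintro ⟨a, h1, rfl⟩
      refine ⟨cd a, ?_, rfl⟩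
      rcases a with z | ⟨k, o⟩
      · refine List.mem_cons_of_mem _ (List.mem_map.2 ⟨_, ?_, rfl⟩)
        rw [Finset.mem_toList, Finset.mem_filter]
        exact ⟨Finset.mem_univ _, fun w j => h1⟩
      · by_cases hk : k = k₀
        · subst hk
          rw [hin]
          simp only [holds, initC, if_true, List.getElem?_map] at h1
          rw [h1]
          exact List.mem_cons_self
        · refine List.mem_cons_of_mem _ (List.mem_map.2 ⟨_, ?_, rfl⟩)
          simp only [holds, initC, hk, if_false] at h1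
          simpa [holds, initC, hk] using h1
    · rintro ⟨a, h1, rfl⟩
      obtain ⟨o, h2, rfl⟩ := List.mem_map.1 h1
      exact ⟨o, by simpa using h2, rfl⟩
    · rintro ⟨o, h1, rfl⟩
      exact ⟨_, List.mem_map.2 ⟨o, by simpa using h1, rfl⟩, rfl⟩
    · rintro ⟨a, h1, rfl⟩
      obtain ⟨r, h2, rfl⟩ := List.mem_map.1 h1
      exact ⟨r, by simpa using h2, rfl⟩
    · rintro ⟨r, h1, rfl⟩
      exact ⟨_, List.mem_map.2 ⟨r, by simpa using h1, rfl⟩, rfl⟩
  have hpow : ∀ s < W, 2 ^ (W - s) = 2 ^ (W - (s + 1)) + 2 ^ (W - (s + 1)) := by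
    intro s hs
    rw [show W - s = W - (s + 1) + 1 by omega, pow_succ]
    omega
  refine ⟨fun c hc => ?_, fun hb => ?_, fun hb => ?_⟩
  · rcases (hmem c).1 hc with ⟨j, hj, a, -, rfl⟩ | ⟨o, -, rfl⟩ | ⟨s, hs, t, ht, h⟩ |
      ⟨j, hj, r, -, rfl⟩
    · have := jx_lt (s := 0) (κ := 0) (by omega) (by omega) (hlt j hj a)
      exact ⟨this, this, this⟩
    · have := jx_lt (s := 0) (κ := 1) (by omega) (by omega) (hlt 0 (by omega) (Sum.inr (k₁, o)))
      exact ⟨this, this, this⟩
    · simp only [selC, List.mem_cons, List.not_mem_nil, or_false] at h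
      rcases h with rfl | rfl | rfl | rfl <;>
        exact ⟨jx_lt (by omega) (by omega) (by omega), jx_lt (by omega) (by omega) ht,
          jx_lt (by omega) (by omega) ht⟩
    · exact ⟨jx_lt le_rfl (by omega) (hlt _ (min_le_right _ _) _),
        jx_lt le_rfl (by omega) (hlt _ (min_le_right _ _) _),
        jx_lt le_rfl (by omega) (hlt _ (min_le_right _ _) _)⟩
  · let tab : ℕ → ℕ → Bool := fun τ i =>
      decide (∃ j a, i = j * C + cd a ∧ holds (M.step^[τ] (initC z₀ k₀ ι x)) j a)
    have htab : ∀ τ j a, tab τ (j * C + cd a) = true ↔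
        holds (M.step^[τ] (initC z₀ k₀ ι x)) j a := by
      intro τ j a
      simp only [tab, decide_eq_true_eq]
      refine ⟨?_, fun h => ⟨j, a, rfl, h⟩⟩
      rintro ⟨j', a', e, h⟩
      have h1 : cd a = cd a' := by
        have := congrArg (· % C) e
        simpa [Nat.mul_add_mod_of_lt, Nat.mod_eq_of_lt, cd_lt] using this
      have h2 : j = j' := Nat.eq_of_mul_eq_mul_right (by have := cd_lt a; omega : 0 < C) (by omega)
      rwa [cd_inj _ _ h1, h2]
    let τ : (ℕ → Bool) → ℕ → Bool := fun ζ g =>
      tab (start W (fun s _ => ζ (jx W s 3 0)) (g / W / 4) + if g / W % 4 = 0 then 0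
        else if g / W % 4 = 1 then 2 ^ (W - g / W / 4) else 2 ^ (W - (g / W / 4 + 1))) (g % W)
    have hτ : ∀ ζ s κ t, κ < 4 → t < W → τ ζ (jx W s κ t) =
        tab (start W (fun s _ => ζ (jx W s 3 0)) s + if κ = 0 then 0
          else if κ = 1 then 2 ^ (W - s) else 2 ^ (W - (s + 1))) t := by
      intro ζ s κ t h1 h2
      simp only [τ, jx_div h2, jx_mod h2, show (4 * s + κ) / 4 = s by omega,
        show (4 * s + κ) % 4 = κ by omega]
    refine ⟨τ, fun ζ ζ' g h => ?_, fun ζ c hc => ?_⟩
    · simp only [τ]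
      rw [start_congr (b' := fun s _ => ζ' (jx W s 3 0)) _ fun i hi => ?_]
      have := hlt 0 (by omega) aN
      rw [h _ (jx_lt_of (by omega) (by omega))]
    · rcases (hmem c).1 hc with ⟨j, hj, a, h, rfl⟩ | ⟨o, h, rfl⟩ | ⟨s, hs, t, ht, h⟩ |
        ⟨j, hj, r, h, rfl⟩
      · left
        simp only [LT, unitP, cond_false]
        rw [hτ _ _ _ _ (by omega) (hlt j hj a), htab]
        exact h
      · left
        simp only [LT, unitP, cond_false]
        rw [hτ _ _ _ _ (by omega) (hlt 0 (by omega) _), ← Bool.not_eq_true, htab]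
        simp only [start, one_ne_zero, if_false, if_true, zero_add, Nat.sub_zero, hper, holds]
        intro e
        exact hb (e ▸ h)
      · simp only [selC, List.mem_cons, List.not_mem_nil, or_false] at h
        have e := hpow s hs
        rcases h with rfl | rfl | rfl | rfl <;>
          simp only [CT, LT, cond_true, cond_false] <;>
          rw [hτ _ _ _ _ (by omega) ht, hτ _ _ _ _ (by omega) ht, start] <;>
          cases ζ (jx W s 3 0) <;> simp [e, add_assoc]
      · have b4 := h (M.step^[start W (fun s _ => ζ (jx W s 3 0)) W] (initC z₀ k₀ ι x)) j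
        rw [← iterate_succ_apply' M.step, ← holds_min (hS _), ← holds_min (hS _) r.2.1.2.2,
          ← holds_min (hS _) r.2.2.2.2, ← htab, ← htab, ← htab] at b4
        simp only [CT, LT, ruleP, cl, cond_false]
        rw [hτ _ _ _ _ (by omega) (hlt _ (min_le_right _ _) _),
          hτ _ _ _ _ (by omega) (hlt _ (min_le_right _ _) _),
          hτ _ _ _ _ (by omega) (hlt _ (min_le_right _ _) _)]
        simp only [one_ne_zero, if_false, if_true, add_zero, Nat.sub_self, pow_zero]
        by_contra hcon
        simp only [not_or, Bool.not_eq_false] at hcon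
        exact hcon.2.2 (b4 hcon.1 hcon.2.1)
  · let Cov : (ℕ → Bool) → ℕ → ℕ → ℕ → Prop := fun ξ s κ τ => ∀ j ≤ S, ∀ a,
      holds (M.step^[τ] (initC z₀ k₀ ι x)) j a → ξ (jx W s κ (j * C + cd a)) = true
    let b : (ℕ → Bool) → ℕ → ℕ → Bool := fun ξ s a => decide (¬ Cov ξ s 2 (a + 2 ^ (W - (s + 1))))
    let σ : (ℕ → Bool) → ℕ → Bool := fun ξ g =>
      if g / W % 4 = 3 then b ξ (g / W / 4) (start W (b ξ) (g / W / 4)) else false
    refine ⟨σ, fun ξ ξ' g h => ?_, fun ξ => ?_⟩
    · simp only [σ]
      split_ifs with e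
      · have key : ∀ i ≤ g / W / 4, b ξ i = b ξ' i := by
          intro i hi
          funext a
          simp only [b, Cov]
          congr 2
          refine propext (forall₂_congr fun j hj => forall₂_congr fun a _ => ?_)
          rw [h _ (jx_lt_of (hlt j hj a) (by omega)).le]
        rw [start_congr (b' := b ξ') _ fun i hi => key i hi.le, key _ le_rfl]
      · rfl
    · by_contra hc
      push Not at hc
      have inv : ∀ s ≤ W, Cov ξ s 0 (start W (b ξ) s) ∧
          ¬ Cov ξ s 1 (start W (b ξ) s + 2 ^ (W - s)) := by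
        intro s
        induction s with
        | zero =>
          refine fun _ => ⟨fun j hj a h => ?_, fun h => ?_⟩
          · simpa [CT, LT, unitP] using hc _ ((hmem _).2 (Or.inl ⟨j, hj, a, h, rfl⟩))
          · have h1 := hc _ ((hmem _).2 (Or.inr (Or.inl ⟨_, hb, rfl⟩)))
            simp only [CT, LT, unitP, cond_false, or_self] at h1
            rw [h 0 (by omega) _ (by simp [start, hper, holds])] at h1
            exact absurd h1 (by simp)
        | succ s ih =>
          intro hs
          obtain ⟨i1, i2⟩ := ih (by omega)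
          have hσ : σ ξ (jx W s 3 0) = b ξ s (start W (b ξ) s) := by
            simp only [σ, jx_div (show 0 < W by omega), show (4 * s + 3) / 4 = s by omega,
              show (4 * s + 3) % 4 = 3 by omega, if_true]
          have hsel := fun t (ht : t < W) c (h : c ∈ selC W s t) =>
            hc c ((hmem _).2 (Or.inr (Or.inr (Or.inl ⟨s, by omega, t, ht, h⟩))))
          simp only [selC, List.forall_mem_cons, CT, LT, cond_true, cond_false, hσ] at hsel
          rw [start]
          cases hbs : b ξ s (start W (b ξ) s)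
          · have h1 : Cov ξ s 2 (start W (b ξ) s + 2 ^ (W - (s + 1))) := by simpa [b] using hbs
            rw [hbs] at hsel
            refine ⟨fun j hj a h => ?_, fun h => i2 fun j hj a h' => ?_⟩
            · simpa [h1 j hj a h] using (hsel _ (hlt j hj a)).2.1
            · rw [hpow s (by omega), ← add_assoc] at h'
              simpa [h j hj a h'] using (hsel _ (hlt j hj a)).2.2.2.1
          · have h1 : ¬ Cov ξ s 2 (start W (b ξ) s + 2 ^ (W - (s + 1))) := by
              simpa only [b, decide_eq_true_eq] using hbs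
            rw [hbs] at hsel
            refine ⟨fun j hj a h => ?_, fun h => h1 fun j hj a h' => ?_⟩
            · simpa [i1 j hj a h] using (hsel _ (hlt j hj a)).1
            · simpa [h j hj a h'] using (hsel _ (hlt j hj a)).2.2.1
      obtain ⟨i1, i2⟩ := inv W le_rfl
      refine i2 fun j' hj' a h => ?_
      rw [Nat.sub_self, pow_zero, add_comm, iterate_add_apply, iterate_one] at h
      obtain ⟨r, j, hv, hjj, e1, e2, p1, p2⟩ := exists_rule M _ j' a h
      have q1 := i1 _ (min_le_right _ _) _ ((holds_min (hS _) _).2 p1)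
      have q2 := i1 _ (min_le_right _ _) _ ((holds_min (hS _) _).2 p2)
      have := hc _ ((hmem _).2 (Or.inr (Or.inr (Or.inr ⟨j, by omega, r, hv, rfl⟩))))
      simp only [CT, LT, ruleP, cl, cond_false] at this
      unfold pos at q1 q2 e1
      rw [q1, q2, e1, e2, min_eq_left hj'] at this
      simpa using this

end Pool.Agent.Lib.MP_2d136f_lc
end

-- part Pool.Agent.Lib.MP_2d136f_lc.Hard
section

/-!
PSPACE-hardness.
-/

set_option autoImplicit false

namespace Pool.Agent.Lib.MP_2d136f_lc

open Function Pool.Agent.Shared.PolyTime Pool.Agent.Shared.NP Turing Turing.TM2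

theorem am_grow {Z K A : Type} [DecidableEq K] (M : AM Z K A) (d : Z × (K → List A)) (k : K) :
    ∀ i, ((M.step^[i] d).2 k).length ≤ (d.2 k).length + i
  | 0 => le_rfl
  | i + 1 => by
    have ih := am_grow M d k i
    rw [iterate_succ_apply']
    generalize M.step^[i] d = e at ih
    simp only [AM.step, AM.upd]
    rcases M.op e.1 with _ | _ | b
    · simp only
      omega
    · by_cases hk : k = M.kk e.1
      · subst hk
        simp only [update_self, List.length_tail]
        omega
      · simp only [update_of_ne hk]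
        omega
    · by_cases hk : k = M.kk e.1
      · subst hk
        simp only [update_self, List.length_cons]
        omega
      · simp only [update_of_ne hk]
        omega

theorem sim_space {K : Type} [DecidableEq K] {Γ : K → Type} {Λ σ : Type} [Fintype Λ]
    (m : Λ → Stmt Γ Λ σ) (k₀ : K) (inp : Bool → Γ k₀) (D B : ℕ) (hD : ∀ l, depth (m l) ≤ D)
    (c : Cfg Γ Λ σ) (d : (StT m × σ) × (K → List (Bool ⊕ (StT m × σ))))
    (h : Sim m k₀ inp c d)
    (hB : ∀ (s : ℕ) (c' : Cfg Γ Λ σ), (flip bind (step m))^[s] (some c) = some c' →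
      ∀ k, (c'.stk k).length ≤ B) :
    ∀ (s : ℕ) (c' : Cfg Γ Λ σ), (flip bind (step m))^[s] (some c) = some c' →
      ∃ n, Sim m k₀ inp c' ((simM m k₀ inp).step^[n] d) ∧
        ∀ t ≤ n, ∀ k, (((simM m k₀ inp).step^[t] d).2 k).length ≤ B + D := by
  have len : ∀ {c' : Cfg Γ Λ σ} {d'}, Sim m k₀ inp c' d' → ∀ k,
      (d'.2 k).length = (c'.stk k).length := fun h k => by
    simpa using congrArg List.length (h.2.2 k)
  intro s
  induction s with
  | zero =>
    intro c' h1
    have h2 := hB 0 c' h1
    simp only [iterate_zero, id, Option.some.injEq] at h1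
    subst h1
    refine ⟨0, h, fun t ht k => ?_⟩
    rw [show t = 0 by omega, iterate_zero_apply, len h]
    exact (h2 k).trans (Nat.le_add_right _ _)
  | succ s ih =>
    intro c' h1
    rw [iterate_succ_apply'] at h1
    rcases h2 : (flip bind (step m))^[s] (some c) with _ | c₁
    · rw [h2] at h1
      simp [flip] at h1
    · rw [h2] at h1
      obtain ⟨n, h3, hn⟩ := ih c₁ h2
      have h6 := fun k => (len h3 k).trans_le (hB s c₁ h2 k)
      obtain ⟨h3, h4, h5⟩ := h3
      rcases c₁ with ⟨_ | l, v, S⟩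
      · simp [flip] at h1
      · simp only [flip, Option.bind_eq_bind, Option.bind_some, step, Option.some.injEq] at h1
        subst h1
        obtain ⟨n', hn', hs⟩ := micro m k₀ inp (m l) v S _ h3 h4 h5
        refine ⟨n' + n, by rwa [iterate_add_apply], fun t ht k => ?_⟩
        by_cases e : t ≤ n
        · exact hn t e k
        · obtain ⟨i, rfl⟩ := Nat.exists_eq_add_of_le' (Nat.le_of_not_le e)
          rw [iterate_add_apply]
          have := am_grow (simM m k₀ inp) ((simM m k₀ inp).step^[n] d) k i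
          have := h6 k
          have := hD l
          omega

/-- Every language in PSPACE reduces to ordered formulas. -/
theorem to_formula (L : List Bool → Prop) (h : InPSPACE id L) :
    ∃ F : Raw → ℕ × List PC, PF F ∧ ∀ x, Bdd (F ⟨x⟩).1 (F ⟨x⟩).2 ∧ (L x → WForm (F ⟨x⟩).2) ∧
      (¬ L x → SForm (F ⟨x⟩).2) := by
  classical
  obtain ⟨tm, ein, eout, p, h⟩ := h
  let _ := tm.kFin
  let _ := tm.ΛFin
  let _ := tm.σFin
  let m := tm.m
  let inp : Bool → tm.Γ tm.k₀ := ein.symm
  let D : ℕ := Finset.univ.sup fun l => depth (m l)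
  have hD : ∀ l, depth (m l) ≤ D := fun l =>
    Finset.le_sup (f := fun l => depth (m l)) (Finset.mem_univ l)
  obtain ⟨ν, Φ, hν, hΦ, hs⟩ := savitch (simM m tm.k₀ inp)
    (mkSt m (some (m tm.main)), tm.initialState) tm.k₀ tm.k₁ Sum.inl
    (fun o => o.bind (val m tm.k₀ inp) = some ⟨tm.k₁, eout.symm false⟩)
  refine ⟨fun w => (ν (p.eval w.bits.length + D), Φ (w.bits, p.eval w.bits.length + D)), ?_,
    fun x => ?_⟩
  · have h1 : PF (fun w : Raw => p.eval w.bits.length + D) :=
      PF.add (PF_poly (by fun_prop) p) (PF.const _)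
    exact PF.pair (hν.comp h1) (hΦ.comp (PF.pair (by fun_prop) h1))
  · obtain ⟨⟨b, hb, ⟨s, hs1⟩⟩, hsp⟩ := h x
    have h0 : Sim m tm.k₀ inp (initList tm (x.map ein.symm))
        (initC (mkSt m (some (m tm.main)), tm.initialState) tm.k₀ Sum.inl x) := by
      refine ⟨mkSt_val m (m_mem_stmts m _), rfl, fun k => ?_⟩
      by_cases hk : k = tm.k₀
      · subst hk
        simp [initC, initList, val, inp]
      · simp [initC, initList, hk]
    obtain ⟨n, h1, hn⟩ := sim_space m tm.k₀ inp D (p.eval x.length) hD _ _ h0 hsp s _ hs1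
    obtain ⟨r1, r2, r3⟩ := hs x (p.eval x.length + D) n (fun t k => by
      by_cases e : t ≤ n
      · exact hn t e k
      · obtain ⟨i, rfl⟩ := Nat.exists_eq_add_of_le' (Nat.le_of_not_le e)
        rw [iterate_add_apply, sim_idle m tm.k₀ inp h1 rfl]
        exact hn n le_rfl k) (sim_idle m tm.k₀ inp h1 rfl 1)
    have h2 := h1.2.2 tm.k₁
    simp only [haltList, dite_true] at h2
    obtain ⟨a, l, h3, h4, -⟩ := List.map_eq_cons_iff.1 h2
    rw [h3] at r2 r3
    simp only [List.getElem?_cons_zero, Option.bind_some, h4, Option.some.injEq] at r2 r3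
    refine ⟨r1, fun hL => r2 fun h5 => ?_, fun hL => r3 ?_⟩
    · have := eout.symm.injective (sigma_mk_injective h5)
      rw [hb.1 hL] at this
      exact absurd this (by simp)
    · rw [show b = false by simpa [hb] using hL]

theorem pspaceHard : PSPACEHard GraphInst.code WCDom := by
  intro L hL
  obtain ⟨F, hF, hs⟩ := to_formula L hL
  have h1 : PF fun w : Raw => matOf (2 * (F w).1 + 1) (echo (F w).1 (F w).2) :=
    matOf_pf.comp (g := fun w : Raw => (2 * (F w).1 + 1, echo (F w).1 (F w).2))
      (PF.pair (by fun_prop) (echo_pf.comp hF))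
  refine ⟨fun x => graphOf (2 * (F ⟨x⟩).1 + 1) (echo (F ⟨x⟩).1 (F ⟨x⟩).2),
    h1.tm2 id _ _ Raw.mk (fun _ => rfl) (fun x => code_graphOf _ _), fun x => ?_⟩
  obtain ⟨h2, h3, h4⟩ := hs x
  exact ⟨fun h => (reduce h2).1 (h3 h), fun h => by_contra fun h' => (reduce h2).2 (h4 h') h⟩

end Pool.Agent.Lib.MP_2d136f_lc
end

-- part Pool.Agent.Lib.MP_2d136f_lc.Space
section

/-!
A criterion for membership in PSPACE: iterate a polynomial-time step on small states.
-/

set_option autoImplicit false

namespace Pool.Agent.Lib.MP_2d136f_lc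

open Function Pool.Agent.Shared.PolyTime Pool.Agent.Shared.NP Turing Turing.TM2 Polynomial

section

variable {N : ℕ} {L : Type} (M : L → TS N L)

theorem stepAux_len : ∀ (q : TS N L) (v : Option Bool) (S : Fin (N + 1) → List Bool)
    (k : Fin (N + 1)), ((stepAux q v S).stk k).length ≤ (S k).length + depth q := by
  intro q
  induction q with
  | push j f q ih =>
    intro v S k
    refine (ih _ _ k).trans ?_
    by_cases e : k = j
    · subst e
      simp only [update_self, List.length_cons, depth]
      omega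
    · simp only [update_of_ne e, depth]
      omega
  | peek j f q ih =>
    intro v S k
    exact (ih _ _ k).trans (by simp only [depth]; omega)
  | pop j f q ih =>
    intro v S k
    refine (ih _ _ k).trans ?_
    by_cases e : k = j
    · subst e
      simp only [update_self, List.length_tail, depth]
      omega
    · simp only [update_of_ne e, depth]
      omega
  | load a q ih =>
    intro v S k
    exact (ih _ _ k).trans (by simp only [depth]; omega)
  | branch f q₁ q₂ ih₁ ih₂ =>
    intro v S k
    simp only [stepAux, depth]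
    cases f v
    · exact (ih₂ _ _ k).trans (by omega)
    · exact (ih₁ _ _ k).trans (by omega)
  | goto f => exact fun v S k => Nat.le_add_right _ _
  | halt => exact fun v S k => Nat.le_add_right _ _

/-- A run along which all stacks have length at most `B`. -/
def StepsB (B : ℕ) (a b : TC N L) : Prop :=
  ∃ m, Steps M m a b ∧ ∀ t ≤ m, ∀ c : TC N L, Steps M t a c → ∀ k, (c.stk k).length ≤ B

variable {M}

theorem StepsB.last {B : ℕ} {a b : TC N L} (h : StepsB M B a b) (k : Fin (N + 1)) :
    (b.stk k).length ≤ B := by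
  obtain ⟨m, h1, h2⟩ := h
  exact h2 m le_rfl b h1 k

theorem StepsB.mono {B B' : ℕ} {a b : TC N L} (h : StepsB M B a b) (hB : B ≤ B') :
    StepsB M B' a b := by
  obtain ⟨m, h1, h2⟩ := h
  exact ⟨m, h1, fun t ht c hc k => (h2 t ht c hc k).trans hB⟩

theorem StepsB.trans {B : ℕ} {a b c : TC N L} (h1 : StepsB M B a b) (h2 : StepsB M B b c) :
    StepsB M B a c := by
  obtain ⟨m, a1, a2⟩ := h1
  obtain ⟨n, b1, b2⟩ := h2
  refine ⟨n + m, a1.trans b1, fun t ht d hd k => ?_⟩
  by_cases e : t ≤ m
  · exact a2 t e d hd k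
  · obtain ⟨i, rfl⟩ := Nat.exists_eq_add_of_le' (Nat.le_of_not_le e)
    refine b2 i (by omega) d ?_ k
    unfold Steps at *
    rwa [iterate_add_apply, a1] at hd

theorem steps_len {D B : ℕ} (hD : ∀ l, depth (M l) ≤ D) {a : TC N L}
    (ha : ∀ k, (a.stk k).length ≤ B) :
    ∀ (t : ℕ) (c : TC N L), Steps M t a c → ∀ k, (c.stk k).length ≤ B + D * t := by
  intro t
  induction t with
  | zero =>
    intro c hc k
    simp only [Steps, iterate_zero, id, Option.some.injEq] at hc
    subst hc
    exact ha k
  | succ t ih =>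
    intro c hc k
    unfold Steps at hc ih
    rw [iterate_succ_apply'] at hc
    rcases h2 : (flip bind (step M))^[t] (some a) with _ | c₁
    · rw [h2] at hc
      simp [flip] at hc
    · rw [h2] at hc
      have h3 := ih c₁ h2 k
      rcases c₁ with ⟨_ | l, v, S⟩
      · simp [flip] at hc
      · simp only [flip, Option.bind_eq_bind, Option.bind_some, step, Option.some.injEq] at hc
        subst hc
        have h4 := stepAux_len (M l) v S k
        have := hD l
        simp only at h3
        rw [Nat.mul_succ]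
        omega

theorem stepsB_of {D B T m : ℕ} (hD : ∀ l, depth (M l) ≤ D) {a b : TC N L}
    (ha : ∀ k, (a.stk k).length ≤ B) (h : Steps M m a b) (hm : m ≤ T) :
    StepsB M (B + D * T) a b :=
  ⟨m, h, fun t ht c hc k => (steps_len hD ha t c hc k).trans
    (Nat.add_le_add_left (Nat.mul_le_mul_left _ (ht.trans hm)) _)⟩

theorem loop_space {k : ℕ} {body : Cmd} (hb : (Cmd.loop k body).Bdd N)
    (emb : (Cmd.loop k body).Pos → L) (q : TS N L)
    (hM : ∀ p, M (emb p) = lab N (Cmd.loop k body) emb q p) {D B T : ℕ}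
    (hD : ∀ l, depth (M l) ≤ D) : ∀ (n : ℕ) (s : ℕ → St),
    (∀ i < n, s i k ≠ [] ∧ Exec body (s i) (s (i + 1)) T) → s n k = [] →
    (∀ i ≤ n, ∀ j, (s i j).length ≤ B) → ∀ v, ∃ v', StepsB M (B + D * (T + 1))
      ⟨some (emb none), v, tr N (s 0)⟩ (stepAux q v' (tr N (s n))) := by
  intro n
  induction n with
  | zero =>
    intro s _ h2 h3 v
    have h1 := Steps.one M (emb none) v (tr N (s 0))
    rw [hM none] at h1
    simp only [lab, TM2.stepAux] at h1
    rw [tr_reg hb.1, h2] at h1
    exact ⟨none, stepsB_of hD (fun j => h3 0 le_rfl j) h1 (by omega)⟩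
  | succ n ih =>
    intro s h0 h2 h3 v
    have h1 := Steps.one M (emb none) v (tr N (s 0))
    rw [hM none] at h1
    simp only [lab, TM2.stepAux] at h1
    rw [tr_reg hb.1] at h1
    obtain ⟨b, l, hbl⟩ := List.exists_cons_of_ne_nil (h0 0 (by omega)).1
    rw [hbl] at h1
    obtain ⟨v1, m1, hm1, h4⟩ := simulate M (h0 0 (by omega)).2 hb.2 (fun p => emb (some p))
      (.goto (fun _ => emb none)) (fun p => hM (some p)) (some b)
    obtain ⟨v2, h5⟩ := ih (fun i => s (i + 1)) (fun i hi => h0 (i + 1) (by omega)) h2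
      (fun i hi => h3 (i + 1) (by omega)) v1
    exact ⟨v2, (stepsB_of hD (fun j => h3 0 (by omega) j) (h1.trans h4) (by omega)).trans h5⟩

end

/-- Compute `F` of stack 0 and store it on stack `b`. -/
theorem exec_set {F : List Bool → List Bool} (hF : PT 1 fun v => F (v 0)) {b : ℕ} (hb : b < 3) :
    ∃ (c : Cmd) (p : Polynomial ℕ), ∀ (s : St) (B : ℕ), (∀ k, 3 ≤ k → s k = []) →
      (∀ k, (s k).length ≤ B) → Exec c s (update s b (F (s 0))) (p.eval B) := by
  obtain ⟨c, p, hc⟩ := hF 3 (fun _ => 0) (fun _ => by omega)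
  obtain ⟨q, hq⟩ := hF.size
  refine ⟨.seq c (assign 3 b), p + 2 * X + 8 * q + 3, fun s B h1 h2 => ?_⟩
  have e1 := hc s B h1 fun _ => h2 0
  have e2 := exec_assign hb (update s 3 (F (s 0))) (by rw [update_of_ne (by omega), h1 _ (by omega)])
  refine (e1.seq e2).of_eq ?_ ?_
  · funext k
    by_cases a1 : k = b
    · subst a1; simp
    by_cases a2 : k = 3
    · subst a2; simp [update_of_ne a1, h1 3 le_rfl]
    · simp [update_of_ne a1, update_of_ne a2]
  · have := hq (fun _ => s 0) B fun _ => h2 0
    have := h2 b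
    simp only [update_self, update_of_ne (show b ≠ 3 by omega), eval_add, eval_mul, eval_X,
      eval_ofNat]
    omega

theorem inPSPACE_of_loop {α σ I : Type} [Enc α] [Enc σ] (e : I → List Bool) (Y : I → Prop)
    (d : I → α) (he : ∀ i, e i = Enc.enc (d i)) {init : α → σ} {st : σ → σ} {go out : σ → Bool}
    (h1 : PF init) (h2 : PF st) (h3 : PF go) (h4 : PF out) (q : Polynomial ℕ)
    (h : ∀ i, ∃ n, (∀ k < n, go (st^[k] (init (d i))) = true) ∧
      go (st^[n] (init (d i))) = false ∧ (Y i ↔ out (st^[n] (init (d i))) = true) ∧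
      ∀ k ≤ n, (Enc.enc (st^[k] (init (d i)))).length ≤ q.eval (e i).length) : InPSPACE e Y := by
  obtain ⟨F1, a1, b1⟩ := h1
  obtain ⟨F2, a2, b2⟩ := h2
  obtain ⟨F3, a3, b3⟩ : PF fun s => bif go s then 1 else 0 := by fun_prop
  obtain ⟨F4, a4, b4⟩ := h4
  obtain ⟨c1, p1, e1⟩ := exec_set a1 (b := 0) (by omega)
  obtain ⟨c2, p2, e2⟩ := exec_set a2 (b := 0) (by omega)
  obtain ⟨c3, p3, e3⟩ := exec_set a3 (b := 2) (by omega)
  obtain ⟨c4, p4, e4⟩ := exec_set a4 (b := 1) (by omega)
  let c : Cmd := .seq (.seq c1 c3) (.seq (.loop 2 (.seq c2 c3)) (.seq c4 (clear 0)))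
  have hb : c.Bdd (c.top + 1) := Cmd.bdd_of_top_le (Nat.le_succ _)
  let M : Option c.Pos → TS (c.top + 1) (Option c.Pos) := (machine c.top c).m
  let _ := c.finPos
  let D : ℕ := Finset.univ.sup fun l => depth (M l)
  have hD : ∀ l, depth (M l) ≤ D := fun l =>
    Finset.le_sup (f := fun l => depth (M l)) (Finset.mem_univ l)
  let Q : Polynomial ℕ := X + q + 1
  let R : Polynomial ℕ := (p1 + p2 + p3 + p4 + 2 * X + 2).comp Q
  refine ⟨machine c.top c, Equiv.refl _, Equiv.refl _, Q + 2 * C D * R, fun i => ?_⟩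
  obtain ⟨n, g1, g2, g3, g4⟩ := h i
  set B := Q.eval (e i).length with hB
  have hB' : B = (e i).length + q.eval (e i).length + 1 := by simp [hB, Q]
  have hR : R.eval (e i).length = p1.eval B + p2.eval B + p3.eval B + p4.eval B + 2 * B + 2 := by
    simp [R, hB]
  let s : ℕ → St := fun k => update (update (fun _ => []) 0 (Enc.enc (st^[k] (init (d i))))) 2
    (Enc.enc (bif go (st^[k] (init (d i))) then 1 else 0))
  have s0 : ∀ k, s k 0 = Enc.enc (st^[k] (init (d i))) := fun k => by simp [s]
  have sl : ∀ k ≤ n, ∀ j, (s k j).length ≤ B := by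
    intro k hk j
    by_cases a1 : j = 2
    · subst a1
      simp only [s, update_self, len_nat]
      cases go (st^[k] (init (d i))) <;> simp only [cond_true, cond_false] <;> omega
    by_cases a2 : j = 0
    · subst a2
      have := g4 k hk
      rw [s0]
      omega
    · simp [s, update_of_ne a1, update_of_ne a2]
  have flag : ∀ k ≤ n, ∀ t : St, (∀ j, 3 ≤ j → t j = []) → t 1 = [] → (∀ j, (t j).length ≤ B) →
      Exec c3 (update t 0 (Enc.enc (st^[k] (init (d i))))) (s k) (p3.eval B) := by
    intro k hk t t1 t2 t3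
    refine (e3 _ B (fun j hj => by rw [update_of_ne (by omega), t1 j hj]) fun j => ?_).of_eq ?_
      le_rfl
    · by_cases a2 : j = 0
      · subst a2
        have := g4 k hk
        rw [update_self]
        omega
      · rw [update_of_ne a2]
        exact t3 j
    · funext j
      by_cases a1 : j = 2
      · subst a1
        simp [s, b3]
      by_cases a2 : j = 0
      · subst a2
        simp [s]
      by_cases a3 : j = 1
      · subst a3
        simp [s, t2]
      · simp [s, update_of_ne a1, update_of_ne a2, t1 j (by omega)]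
  have s3 : ∀ k j, 3 ≤ j → s k j = [] := fun k j hj => by
    simp [s, update_of_ne (show j ≠ 2 by omega), update_of_ne (show j ≠ 0 by omega)]
  have tl : ∀ j, ((update (fun _ => []) 0 (e i) : St) j).length ≤ B := by
    intro j
    by_cases a2 : j = 0
    · subst a2
      rw [update_self]
      omega
    · simp [update_of_ne a2]
  have x1 : Exec (.seq c1 c3) (update (fun _ => []) 0 (e i)) (s 0) (p1.eval B + p3.eval B) := by
    have t1 : ∀ j, 3 ≤ j → (update (fun _ => []) 0 (e i) : St) j = [] := fun j hj => by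
      rw [update_of_ne (by omega)]
    refine (e1 _ B t1 tl).seq ?_
    rw [update_self, he, b1, ← he]
    exact flag 0 (by omega) _ t1 (by simp) tl
  have x2 : ∀ k < n, s k 2 ≠ [] ∧ Exec (.seq c2 c3) (s k) (s (k + 1)) (p2.eval B + p3.eval B) := by
    intro k hk
    refine ⟨by simp [s, g1 k hk, enc_nat], (e2 _ B (s3 k) (sl k hk.le)).seq ?_⟩
    rw [s0, b2, ← iterate_succ_apply' st]
    exact flag (k + 1) hk _ (s3 k) (by simp [s]) (sl k hk.le)
  have x3 : s n 2 = [] := by simp [s, g2, enc_nat]
  have x4 : Exec (.seq c4 (clear 0)) (s n)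
      (update (fun _ => []) 1 [out (st^[n] (init (d i)))]) (p4.eval B + (2 * B + 1)) := by
    refine ((e4 _ B (s3 n) (sl n le_rfl)).seq (exec_clear 0 _ _ rfl)).of_eq ?_ ?_
    · funext j
      by_cases a2 : j = 0
      · subst a2
        simp
      by_cases a3 : j = 1
      · subst a3
        simp [s0, b4, enc_bool]
      by_cases a1 : j = 2
      · subst a1
        simp [x3]
      · simp [update_of_ne a2, update_of_ne a3, s3 n j (by omega)]
    · have := sl n le_rfl 0
      rw [update_of_ne (by omega)]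
      omega
  obtain ⟨v1, m1, hm1, r1⟩ := simulate M x1 hb.1 (fun p => some (.inl p))
    (.goto fun _ => some (.inr (.inl none))) (fun _ => rfl) none
  have r2 := stepsB_of hD (T := R.eval (e i).length) (B := B) (fun j => tl j)
    ((Steps.one M none none (tr _ (update (fun _ => []) 0 (e i)))).trans r1) (by omega)
  obtain ⟨v2, r3⟩ := loop_space (M := M) hb.2.1 (fun p => some (.inr (.inl p)))
    (ent _ (.seq c4 (clear 0)) (fun p => some (.inr (.inr p))) (.load (fun _ => none) .halt))
    (fun _ => rfl) hD n s x2 x3 sl v1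
  have r4 := r3.mono (B' := B + D * R.eval (e i).length)
    (Nat.add_le_add_left (Nat.mul_le_mul_left _ (by omega)) _)
  obtain ⟨v3, m3, hm3, r5⟩ := simulate M x4 hb.2.2 (fun p => some (.inr (.inr p)))
    (.load (fun _ => none) .halt) (fun _ => rfl) v2
  have r6 := stepsB_of hD (T := R.eval (e i).length) r4.last r5 (by omega)
  obtain ⟨m, r7, r8⟩ := ((r2.trans r4).mono (Nat.le_add_right _ _)).trans r6
  have i1 : initList (machine c.top c) ((e i).map (Equiv.refl Bool).symm) =
      ⟨some none, none, tr _ (update (fun _ => []) 0 (e i))⟩ := by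
    unfold initList
    congr 1
    funext k
    by_cases hk : k = (machine c.top c).k₀
    · subst hk
      rw [dif_pos rfl]
      exact List.map_id _
    · rw [dif_neg hk]
      have : (k : Fin (c.top + 2)).val ≠ 0 := fun e => hk (Fin.ext e)
      simp only [tr, update_of_ne this]
      rfl
  have i2 : haltList (machine c.top c) [out (st^[n] (init (d i)))] =
      ⟨none, none, tr _ (update (fun _ => []) 1 [out (st^[n] (init (d i)))])⟩ := by
    unfold haltList
    congr 1
    funext k
    by_cases hk : k = (machine c.top c).k₁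
    · subst hk
      rw [dif_pos rfl]
      rfl
    · rw [dif_neg hk]
      have : (k : Fin (c.top + 2)).val ≠ 1 := fun e => hk (Fin.ext e)
      simp only [tr, update_of_ne this]
      rfl
  refine ⟨⟨_, g3, ⟨⟨m, ?_⟩⟩⟩, fun t x hx k => ?_⟩
  · exact (congrArg (fun z => (flip bind (machine c.top c).step)^[m] (some z)) i1).trans
      (Eq.trans r7 (congrArg some i2.symm))
  · have hx' : Steps M t ⟨some none, none, tr _ (update (fun _ => []) 0 (e i))⟩ x :=
      (congrArg (fun z => (flip bind (machine c.top c).step)^[t] (some z)) i1).symm.trans hx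
    by_cases ht : t ≤ m
    · refine (r8 t ht x hx' k).trans (le_of_eq ?_)
      simp only [eval_add, eval_mul, eval_C, eval_ofNat, ← hB]
      ring
    · obtain ⟨j, rfl⟩ := Nat.exists_eq_add_of_lt (Nat.lt_of_not_le ht)
      unfold Steps at hx' r7
      rw [show m + j + 1 = j + 1 + m by omega, iterate_add_apply, r7, iterate_succ_apply] at hx'
      have hn : ∀ j, (flip bind (step M))^[j] none = none := fun j => iterate_fixed rfl j
      exact absurd ((hn j).symm.trans hx') (by simp)

end Pool.Agent.Lib.MP_2d136f_lc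
end

-- part Pool.Agent.Lib.MP_2d136f_lc.Member
section

/-!
Depth-first evaluation of the game tree: membership in PSPACE.
-/

set_option autoImplicit false

namespace Pool.Agent.Lib.MP_2d136f_lc

open Function Pool.Agent.Shared.PolyTime Polynomial

/-- Frames: the two sets, the number of the offer under test, and the phase. -/
abbrev Fr : Type := List ℕ × List ℕ × ℕ × Bool
/-- States: the matrix, the returned value and the stack. -/
abbrev DS : Type := List (List Bool) × ℕ × List Fr

/-- Domination test. -/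
def domB (A : List (List Bool)) (D : List ℕ) : Bool :=
  (List.range A.length).all fun v => D.contains v || D.any fun u => entry A v u

/-- Legality test. -/
def legalB (n : ℕ) (D S : List ℕ) (u v : ℕ) : Bool :=
  Nat.blt u n && Nat.blt v n && !(u == v) && !D.contains u && !S.contains u && !D.contains v &&
    !S.contains v

/-- One step, with the top frame exposed. -/
def stepF (A : List (List Bool)) (r : ℕ) (f : Fr) (rest : List Fr) : DS :=
  bif r == 0 then
    bif domB A f.1 then (A, 2, rest)
    else bif Nat.ble (A.length * A.length) f.2.2.1 then (A, 1, rest)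
    else bif legalB A.length f.1 f.2.1 (f.2.2.1 / A.length) (f.2.2.1 % A.length) then
      (A, 0, (bif f.2.2.2 then ((f.2.2.1 % A.length) :: f.1, (f.2.2.1 / A.length) :: f.2.1, 0, false)
        else ((f.2.2.1 / A.length) :: f.1, (f.2.2.1 % A.length) :: f.2.1, 0, false)) :: f :: rest)
    else (A, 0, (f.1, f.2.1, f.2.2.1 + 1, false) :: rest)
  else bif r == 1 then (A, 0, (f.1, f.2.1, f.2.2.1 + 1, false) :: rest)
  else bif f.2.2.2 then (A, 2, rest) else (A, 0, (f.1, f.2.1, f.2.2.1, true) :: rest)

/-- One step. -/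
def dfs (s : DS) : DS := stepF s.1 s.2.1 (s.2.2.headD ([], [], 0, false)) s.2.2.tail

theorem dfs_pf : PF dfs := by
  unfold dfs stepF domB legalB
  fun_prop

theorem domB_iff (A : List (List Bool)) (D : List ℕ) :
    domB A D = true ↔ Dom A.length (entry A) D.toFinset := by
  simp [domB, Dom]

theorem legalB_iff (n : ℕ) (D S : List ℕ) (u v : ℕ) :
    legalB n D S u v = true ↔ Legal n D.toFinset S.toFinset u v := by
  simp [legalB, Legal, Nat.blt_eq, and_assoc]

/-- Small frames. -/
def FOk (n : ℕ) (f : Fr) : Prop :=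
  f.1.length ≤ n ∧ f.2.1.length ≤ n ∧ (∀ x ∈ f.1, x < n) ∧ (∀ x ∈ f.2.1, x < n) ∧ f.2.2.1 ≤ n * n

/-- Small running states. -/
def SOk (A : List (List Bool)) (s : DS) : Prop :=
  s.1 = A ∧ s.2.1 ≤ 2 ∧ s.2.2 ≠ [] ∧ s.2.2.length ≤ A.length + 1 ∧ ∀ f ∈ s.2.2, FOk A.length f

/-- Runs through small states. -/
def Run (A : List (List Bool)) (a b : DS) : Prop :=
  ∃ m, dfs^[m] a = b ∧ ∀ k < m, SOk A (dfs^[k] a)

theorem Run.trans {A : List (List Bool)} {a b c : DS} (h1 : Run A a b) (h2 : Run A b c) :
    Run A a c := by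
  obtain ⟨m, a1, a2⟩ := h1
  obtain ⟨n, b1, b2⟩ := h2
  refine ⟨n + m, by rw [iterate_add_apply, a1, b1], fun k hk => ?_⟩
  by_cases e : k < m
  · exact a2 k e
  · obtain ⟨i, rfl⟩ := Nat.exists_eq_add_of_le' (Nat.le_of_not_lt e)
    rw [iterate_add_apply, a1]
    exact b2 i (by omega)

theorem Run.one {A : List (List Bool)} {a b : DS} (h1 : SOk A a) (h2 : dfs a = b) : Run A a b :=
  ⟨1, h2, fun k hk => by rwa [show k = 0 by omega]⟩

/-- Winning by an offer with number at least `i`. -/
def WinFrom (A : List (List Bool)) (D S : List ℕ) (i : ℕ) : Prop :=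
  Dom A.length (entry A) D.toFinset ∨ ∃ j, i ≤ j ∧ j < A.length * A.length ∧
    Legal A.length D.toFinset S.toFinset (j / A.length) (j % A.length) ∧
    Win A.length (entry A) ((j / A.length) :: D).toFinset ((j % A.length) :: S).toFinset ∧
    Win A.length (entry A) ((j % A.length) :: D).toFinset ((j / A.length) :: S).toFinset

theorem winFrom_zero (A : List (List Bool)) (D S : List ℕ) :
    WinFrom A D S 0 ↔ Win A.length (entry A) D.toFinset S.toFinset := by
  simp only [WinFrom, List.toFinset_cons]
  constructor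
  · rintro (h | ⟨j, -, -, h1, h2, h3⟩)
    · exact Win.won h
    · exact Win.offer _ _ h1 h2 h3
  · intro h
    cases h with
    | won h => exact Or.inl h
    | offer u v h1 h2 h3 =>
      have e1 : (u * A.length + v) / A.length = u := by
        rw [add_comm, Nat.add_mul_div_right _ _ (by have := h1.1; omega),
          Nat.div_eq_of_lt h1.2.1, zero_add]
      have e2 : (u * A.length + v) % A.length = v := by
        rw [add_comm, Nat.add_mul_mod_self_right, Nat.mod_eq_of_lt h1.2.1]
      refine Or.inr ⟨u * A.length + v, Nat.zero_le _, ?_, ?_⟩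
      · have := Nat.mul_le_mul_right A.length (Nat.succ_le_of_lt h1.1)
        have := h1.2.1
        rw [Nat.succ_mul] at *
        omega
      · rw [e1, e2]
        exact ⟨h1, h2, h3⟩

theorem dfs_run (A : List (List Bool)) : ∀ (k : ℕ) (D S : List ℕ) (rest : List Fr),
    A.length ≤ D.length + k → D.Nodup → (∀ x ∈ D, x < A.length) → (∀ x ∈ S, x < A.length) →
    S.length = D.length → rest.length = D.length → (∀ f ∈ rest, FOk A.length f) →
    ∀ j i, i + j = A.length * A.length → ∃ r, Run A (A, 0, (D, S, i, false) :: rest) (A, r, rest) ∧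
      (r = 1 ∨ r = 2) ∧ (r = 2 ↔ WinFrom A D S i) := by
  have hlen : ∀ D : List ℕ, D.Nodup → (∀ x ∈ D, x < A.length) → D.length ≤ A.length := by
    intro D h1 h2
    simpa using (h1.subperm (l₂ := List.range A.length) fun x hx =>
      List.mem_range.2 (h2 x hx)).length_le
  intro k
  induction k using Nat.strong_induction_on with
  | _ k ihk =>
  intro D S rest hk h1 h2 h3 h4 h5 h6 j
  have hD := hlen D h1 h2
  have ok : ∀ r i ph, r ≤ 2 → i ≤ A.length * A.length → SOk A (A, r, (D, S, i, ph) :: rest) := by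
    intro r i ph hr hi
    refine ⟨rfl, hr, by simp, by simp only [List.length_cons]; omega, fun f hf => ?_⟩
    rcases List.mem_cons.1 hf with rfl | hf
    · exact ⟨hD, by simp only; omega, h2, h3, hi⟩
    · exact h6 f hf
  by_cases hd : domB A D = true
  · intro i hi
    exact ⟨2, Run.one (ok 0 i false (by omega) (by omega)) (by simp [dfs, stepF, hd]), Or.inr rfl,
      by simp [WinFrom, ← domB_iff, hd]⟩
  induction j with
  | zero =>
    intro i hi
    refine ⟨1, Run.one (ok 0 i false (by omega) (by omega)) ?_, Or.inl rfl, ?_⟩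
    · have hi' : Nat.ble (A.length * A.length) i = true := Nat.ble_eq_true_of_le (by omega)
      simp [dfs, stepF, hd, hi']
    · simp only [WinFrom, ← domB_iff, hd, Bool.false_eq_true, false_or, OfNat.one_ne_ofNat,
        false_iff, not_exists, not_and]
      intro j a b
      omega
  | succ j ih =>
    intro i hi
    have hi' : Nat.ble (A.length * A.length) i = false := by
      rw [← Bool.not_eq_true, Nat.ble_eq]
      omega
    obtain ⟨r, a1, a2, a3⟩ := ih (i + 1) (by omega)
    have skip : ¬ (Legal A.length D.toFinset S.toFinset (i / A.length) (i % A.length) ∧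
        Win A.length (entry A) ((i / A.length) :: D).toFinset ((i % A.length) :: S).toFinset ∧
        Win A.length (entry A) ((i % A.length) :: D).toFinset ((i / A.length) :: S).toFinset) →
        (r = 2 ↔ WinFrom A D S i) := by
      intro hn
      rw [a3]
      refine or_congr Iff.rfl (exists_congr fun j => ⟨fun h => ⟨by omega, h.2⟩, fun h => ⟨?_, h.2⟩⟩)
      rcases h.1.eq_or_lt with rfl | e
      · exact absurd h.2.2 hn
      · exact e
    by_cases hl : legalB A.length D S (i / A.length) (i % A.length) = true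
    · have hl' := (legalB_iff _ _ _ _ _).1 hl
      have child : ∀ u v ph, Legal A.length D.toFinset S.toFinset u v → ∃ r,
          Run A (A, 0, (u :: D, v :: S, 0, false) :: (D, S, i, ph) :: rest)
            (A, r, (D, S, i, ph) :: rest) ∧ (r = 1 ∨ r = 2) ∧
          (r = 2 ↔ Win A.length (entry A) (u :: D).toFinset (v :: S).toFinset) := by
        intro u v ph h
        have n1 : (u :: D).Nodup := List.nodup_cons.2 ⟨by simpa using h.2.2.2.1, h1⟩
        have n2 : ∀ x ∈ u :: D, x < A.length := List.forall_mem_cons.2 ⟨h.1, h2⟩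
        have n3 := hlen _ n1 n2
        simp only [List.length_cons] at n3
        rw [← winFrom_zero]
        exact ihk (k - 1) (by omega) (u :: D) (v :: S) _ (by simp only [List.length_cons]; omega)
          n1 n2 (List.forall_mem_cons.2 ⟨h.2.1, h3⟩) (by simp [h4]) (by simp [h5])
          (ok 0 i ph (by omega) (by omega)).2.2.2.2 _ 0 (zero_add _)
      obtain ⟨r1, b1, b2, b3⟩ := child _ _ false hl'
      obtain ⟨r2, c1, c2, c3⟩ := child _ _ true hl'.symm
      have s1 := (Run.one (ok 0 i false (by omega) (by omega))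
        (by simp [dfs, stepF, hd, hi', hl])).trans b1
      rcases b2 with rfl | rfl
      · refine ⟨r, (s1.trans (Run.one (ok 1 i false (by omega) (by omega))
          (by simp [dfs, stepF]))).trans a1, a2, skip fun h => ?_⟩
        exact absurd (b3.2 h.2.1) (by omega)
      · have s2 := ((s1.trans (Run.one (ok 2 i false (by omega) (by omega))
          (b := (A, 0, (D, S, i, true) :: rest)) (by simp [dfs, stepF]))).trans
          (Run.one (ok 0 i true (by omega) (by omega))
            (by simp [dfs, stepF, hd, hi', hl]))).trans c1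
        rcases c2 with rfl | rfl
        · refine ⟨r, (s2.trans (Run.one (ok 1 i true (by omega) (by omega))
            (by simp [dfs, stepF]))).trans a1, a2, skip fun h => ?_⟩
          exact absurd (c3.2 h.2.2) (by omega)
        · refine ⟨2, s2.trans (Run.one (ok 2 i true (by omega) (by omega))
            (by simp [dfs, stepF])), Or.inr rfl, iff_of_true rfl ?_⟩
          exact Or.inr ⟨i, le_rfl, by omega, hl', b3.1 rfl, c3.1 rfl⟩
    · refine ⟨r, (Run.one (ok 0 i false (by omega) (by omega))
        (by simp [dfs, stepF, hd, hi', hl])).trans a1, a2, skip fun h => hl ?_⟩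
      exact (legalB_iff _ _ _ _ _).2 h.1

theorem state_len {A : List (List Bool)} {r : ℕ} {l : List Fr} (h1 : r ≤ 2)
    (h2 : l.length ≤ A.length + 1) (h3 : ∀ f ∈ l, FOk A.length f) :
    (Enc.enc ((A, r, l) : DS)).length ≤
      (2 * X + 6 + (X + 1) * (2 * (10 * X * X + 4 * X + 4) + 1) : Polynomial ℕ).eval
        (Enc.enc A).length := by
  have a1 := length_le_len A
  generalize hN : (Enc.enc A).length = N at a1
  have a2 := len_le_mul l (10 * N * N + 4 * N + 4) (by
    rintro ⟨D, S, i, ph⟩ hf
    obtain ⟨b1, b2, b3, b4, b5⟩ := h3 _ hf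
    simp only at b1 b2 b3 b4 b5
    have c1 := len_le_mul D N fun x hx => by have := b3 x hx; rw [len_nat]; omega
    have c2 := len_le_mul S N fun x hx => by have := b4 x hx; rw [len_nat]; omega
    have c3 := Nat.mul_le_mul_right (2 * N + 1) (b1.trans a1)
    have c4 := Nat.mul_le_mul_right (2 * N + 1) (b2.trans a1)
    have c5 := Nat.mul_le_mul a1 a1
    simp only [len_prod, len_nat, len_bool]
    nlinarith)
  have a3 := Nat.mul_le_mul_right (2 * (10 * N * N + 4 * N + 4) + 1)
    (show l.length ≤ N + 1 by omega)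
  simp only [len_prod, len_nat, hN, eval_add, eval_mul, eval_X, eval_ofNat, eval_one]
  omega

theorem inPSPACE : InPSPACE GraphInst.code WCDom := by
  refine inPSPACE_of_loop _ _ (fun x => adjMatrix x.graph) (fun _ => rfl)
    (init := fun A => ((A, 0, [([], [], 0, false)]) : DS)) (st := dfs)
    (go := fun s => !s.2.2.isEmpty) (out := fun s => s.2.1 == 2) (by fun_prop) dfs_pf
    (by fun_prop) (by fun_prop)
    (2 * X + 6 + (X + 1) * (2 * (10 * X * X + 4 * X + 4) + 1)) fun x => ?_
  obtain ⟨r, ⟨m, h1, h2⟩, h3, h4⟩ := dfs_run (adjMatrix x.graph) _ [] [] [] (Nat.le_add_left _ _)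
    (by simp) (by simp) (by simp) rfl rfl (by simp) _ 0 (zero_add _)
  have hn : (adjMatrix x.graph).length = x.n := by simp [adjMatrix]
  refine ⟨m, fun k hk => by simpa using (h2 k hk).2.2.1, by rw [h1]; rfl, ?_, fun k hk => ?_⟩
  · rw [h1, beq_iff_eq, h4, winFrom_zero, hn, WCDom,
      domWins_iff _ (entry (adjMatrix x.graph)) fun i j => by simp [entry_adjMatrix]]
    rfl
  · rcases hk.eq_or_lt with rfl | hk
    · rw [h1]
      exact state_len (by omega) (by simp) (by simp)
    · obtain ⟨a1, a2, -, a3, a4⟩ := h2 k hk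
      generalize dfs^[k] _ = s at a1 a2 a3 a4
      obtain ⟨A, r, l⟩ := s
      simp only at a1
      subst a1
      exact state_len a2 a3 a4

end Pool.Agent.Lib.MP_2d136f_lc
end
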