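import Pool.Agent.Lib.MP_2d136f_lc.Staller
import Pool.Agent.Shared.PolyTime.Graph

/-!
Forcing the order of play by echo clauses, and the graph of a formula.
-/

set_option autoImplicit false

namespace Pool.Agent.Lib.MP_2d136f_lc

open Function Pool.Agent.Shared.PolyTime

/-- Relocation of literals. -/
def mv (l : PL) : PL := (l.1, l.2.1, bif l.2.1 then 2 * l.2.2 + 2 else 2 * l.2.2 + 1)

/-- The clauses that say `ξ (2j+2) = ζ (2j+1) xor ζ (2j)`. -/
def echoC (j : ℕ) : List PC :=
  [((false, false, 2 * j + 2), (true, true, 2 * j + 1), (true, true, 2 * j)),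
   ((false, false, 2 * j + 2), (false, true, 2 * j + 1), (false, true, 2 * j)),
   ((true, false, 2 * j + 2), (false, true, 2 * j + 1), (true, true, 2 * j)),
   ((true, false, 2 * j + 2), (true, true, 2 * j + 1), (false, true, 2 * j))]

/-- The formula with echo clauses. -/
def echo (n : ℕ) (ψ : List PC) : List PC :=
  (ψ.map fun c => (mv c.1, mv c.2.1, mv c.2.2)) ++ (List.range n).flatMap echoC

theorem echoC_iff (ξ ζ : ℕ → Bool) (j : ℕ) :
    (∀ c ∈ echoC j, CT ξ ζ c) ↔ ξ (2 * j + 2) = xor (ζ (2 * j + 1)) (ζ (2 * j)) := by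
  simp only [echoC, List.forall_mem_cons, CT, LT, cond_true, cond_false, List.not_mem_nil,
    false_imp_iff, implies_true, and_true]
  cases ξ (2 * j + 2) <;> cases ζ (2 * j + 1) <;> cases ζ (2 * j) <;> simp

theorem lt_mv (ξ ζ : ℕ → Bool) (l : PL) :
    LT ξ ζ (mv l) ↔ LT (fun i => ξ (2 * i + 1)) (fun i => ζ (2 * i + 2)) l := by
  obtain ⟨s, _ | _, g⟩ := l <;> simp [LT, mv]

theorem bdd_echo {n : ℕ} {ψ : List PC} (h : Bdd n ψ) : Bdd (2 * n + 1) (echo n ψ) := by
  intro c hc
  have hm : ∀ l : PL, l.2.2 < n → (mv l).2.2 < 2 * n + 1 := by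
    rintro ⟨s, _ | _, g⟩ hl <;> simp only [mv, cond_true, cond_false] at hl ⊢ <;> omega
  rcases List.mem_append.1 hc with hc | hc
  · obtain ⟨c, h1, rfl⟩ := List.mem_map.1 hc
    exact ⟨hm _ (h c h1).1, hm _ (h c h1).2.1, hm _ (h c h1).2.2⟩
  · obtain ⟨j, h1, h2⟩ := List.mem_flatMap.1 hc
    have := List.mem_range.1 h1
    simp only [echoC, List.mem_cons, List.not_mem_nil, or_false] at h2
    rcases h2 with rfl | rfl | rfl | rfl <;> simp only <;> omega

theorem wform_echo (n : ℕ) {ψ : List PC} (h : WForm ψ) : WForm (echo n ψ) := by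
  obtain ⟨τ, h1, h2⟩ := h
  refine ⟨fun ζ g => if g % 2 = 1 then τ (fun i => ζ (2 * i + 2)) (g / 2)
    else xor (ζ (g - 1)) (ζ (g - 2)) && decide (2 ≤ g), fun ζ ζ' g hg => ?_, fun ζ c hc => ?_⟩
  · by_cases e : g % 2 = 1
    · simp only [e, if_true]
      exact h1 _ _ _ fun i hi => hg _ (by omega)
    · simp only [e, if_false]
      by_cases e' : 2 ≤ g
      · rw [hg (g - 1) (by omega), hg (g - 2) (by omega)]
      · simp [e']
  · rcases List.mem_append.1 hc with hc | hc
    · obtain ⟨c, h3, rfl⟩ := List.mem_map.1 hc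
      have h4 := h2 (fun i => ζ (2 * i + 2)) c h3
      have e : (fun i => if (2 * i + 1) % 2 = 1 then τ (fun i => ζ (2 * i + 2)) ((2 * i + 1) / 2)
          else xor (ζ (2 * i + 1 - 1)) (ζ (2 * i + 1 - 2)) && decide (2 ≤ 2 * i + 1)) =
          τ (fun i => ζ (2 * i + 2)) := by
        funext i
        rw [if_pos (by omega), show (2 * i + 1) / 2 = i by omega]
      simp only [CT, lt_mv, e]
      exact h4
    · obtain ⟨j, -, h3⟩ := List.mem_flatMap.1 hc
      refine (echoC_iff _ _ j).2 ?_ c h3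
      beta_reduce
      rw [if_neg (by omega)]
      simp

theorem cform_echo {n : ℕ} {ψ : List PC} (hb : Bdd n ψ) (h : SForm ψ) :
    CForm (2 * n + 1) (echo n ψ) := by
  obtain ⟨σ, h1, h2⟩ := h
  refine ⟨fun P ξ ζ => (∃ j < n, 2 * j + 2 ∈ P ∧ (2 * j + 1 ∉ P ∨ 2 * j ∉ P ∨
      ξ (2 * j + 2) ≠ xor (ζ (2 * j + 1)) (ζ (2 * j)))) ∨
    ∀ j < n, 2 * j + 2 ∈ P → 2 * j + 1 ∈ P ∧ 2 * j ∈ P ∧
      ζ (2 * j + 2) = σ (fun i => ξ (2 * i + 1)) j, fun _ => false, fun _ => false,
    Or.inr (by simp), ?_, ?_⟩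
  · rintro P ξ ζ g x (⟨j, hj, a1, a2⟩ | hP) hg
    · have e0 : 2 * j + 2 ≠ g := fun e => hg (e ▸ a1)
      by_cases e1 : g = 2 * j + 1
      · subst e1
        refine ⟨xor (!ξ (2 * j + 2)) (ζ (2 * j)), Or.inl ⟨j, hj, Finset.mem_insert_of_mem a1,
          Or.inr (Or.inr ?_)⟩⟩
        rw [update_of_ne e0, update_self, update_of_ne (by omega)]
        cases ξ (2 * j + 2) <;> cases ζ (2 * j) <;> simp
      · by_cases e2 : g = 2 * j
        · subst e2
          refine ⟨xor (!ξ (2 * j + 2)) (ζ (2 * j + 1)), Or.inl ⟨j, hj,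
            Finset.mem_insert_of_mem a1, Or.inr (Or.inr ?_)⟩⟩
          rw [update_of_ne e0, update_self, update_of_ne (by omega)]
          cases ξ (2 * j + 2) <;> cases ζ (2 * j + 1) <;> simp
        · refine ⟨false, Or.inl ⟨j, hj, Finset.mem_insert_of_mem a1, ?_⟩⟩
          rw [update_of_ne e0, update_of_ne (Ne.symm e1), update_of_ne (Ne.symm e2),
            Finset.mem_insert, Finset.mem_insert, or_iff_right (Ne.symm e1),
            or_iff_right (Ne.symm e2)]
          exact a2
    · have down : ∀ j < n, 2 * j + 2 ∈ P → ∀ i ≤ j, 2 * i + 1 ∈ P := by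
        intro j
        induction j with
        | zero =>
          intro hj a i hi
          rw [show i = 0 by omega]
          exact (hP 0 hj a).1
        | succ j ih =>
          intro hj a i hi
          by_cases e : i = j + 1
          · rw [e]
            exact (hP _ hj a).1
          · exact ih (by omega) (hP _ hj a).2.1 i (by omega)
      have keep : ∀ z, ∀ j < n, 2 * j + 2 ∈ P → 2 * j + 1 ∈ insert g P ∧ 2 * j ∈ insert g P ∧
          update ζ g z (2 * j + 2) = σ (fun i => update ξ g x (2 * i + 1)) j := by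
        intro z j hj a
        obtain ⟨b1, b2, b3⟩ := hP j hj a
        refine ⟨Finset.mem_insert_of_mem b1, Finset.mem_insert_of_mem b2, ?_⟩
        rw [update_of_ne (fun e : 2 * j + 2 = g => hg (e ▸ a)), b3]
        refine h1 _ _ _ fun i hi => (update_of_ne (fun e : 2 * i + 1 = g => hg ?_) _ _).symm
        exact e ▸ down j hj a i hi
      by_cases e : ∃ j < n, g = 2 * j + 2
      · obtain ⟨j, hj, rfl⟩ := e
        by_cases e' : 2 * j + 1 ∈ P ∧ 2 * j ∈ P
        · refine ⟨σ (fun i => update ξ (2 * j + 2) x (2 * i + 1)) j, Or.inr fun i hi a => ?_⟩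
          rcases Finset.mem_insert.1 a with a | a
          · rw [show i = j by omega, update_self]
            exact ⟨Finset.mem_insert_of_mem e'.1, Finset.mem_insert_of_mem e'.2, rfl⟩
          · exact keep _ i hi a
        · refine ⟨false, Or.inl ⟨j, hj, Finset.mem_insert_self _ _, ?_⟩⟩
          rw [Finset.mem_insert, Finset.mem_insert,
            or_iff_right (show ¬ 2 * j + 1 = 2 * j + 2 by omega),
            or_iff_right (show ¬ 2 * j = 2 * j + 2 by omega)]
          tauto
      · refine ⟨false, Or.inr fun i hi a => ?_⟩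
        rcases Finset.mem_insert.1 a with a | a
        · exact absurd ⟨i, hi, a.symm⟩ e
        · exact keep _ i hi a
  · rintro P ξ ζ (⟨j, hj, -, a | a | a⟩ | hP) hall
    · exact absurd (hall _ (by omega)) a
    · exact absurd (hall _ (by omega)) a
    · rw [Ne, ← echoC_iff] at a
      push Not at a
      obtain ⟨c, a1, a2⟩ := a
      exact ⟨c, List.mem_append_right _ (List.mem_flatMap.2 ⟨j, List.mem_range.2 hj, a1⟩), a2⟩
    · obtain ⟨c, a1, a2⟩ := h2 fun i => ξ (2 * i + 1)
      refine ⟨_, List.mem_append_left _ (List.mem_map.2 ⟨c, a1, rfl⟩), fun a => a2 ?_⟩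
      have key : ∀ l : PL, l.2.2 < n → LT ξ ζ (mv l) →
          LT (fun i => ξ (2 * i + 1)) (σ fun i => ξ (2 * i + 1)) l := by
        intro l hl
        rw [lt_mv]
        unfold LT
        rw [← (hP _ hl (hall _ (by omega))).2.2]
        exact id
      exact a.imp (key _ (hb c a1).1) (Or.imp (key _ (hb c a1).2.1) (key _ (hb c a1).2.2))

/-- The number of twins. -/
def twins (N : ℕ) (φ : List PC) : ℕ := 4 * N + (edges N φ).length

/-- The number of vertices. -/
def size (N : ℕ) (φ : List PC) : ℕ := 4 * N + (edges N φ).length * twins N φ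

/-- The graph of a paired formula. -/
def graphOf (N : ℕ) (φ : List PC) : GraphInst where
  n := size N φ
  graph :=
    { Adj := fun i j => adj (4 * N) (twins N φ) (edges N φ) i j = true
      symm := ⟨fun i j h => by rwa [adj_symm]⟩
      loopless := ⟨fun i => by simp [adj]⟩ }

/-- Its adjacency matrix. -/
def matOf (N : ℕ) (φ : List PC) : List (List Bool) :=
  (List.range (size N φ)).map fun i => (List.range (size N φ)).map fun j =>
    adj (4 * N) (twins N φ) (edges N φ) i j

theorem code_graphOf (N : ℕ) (φ : List PC) : (graphOf N φ).code = Enc.enc (matOf N φ) := by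
  unfold GraphInst.code
  rw [encGraph_eq, adjMatrix_eq _ (adj (4 * N) (twins N φ) (edges N φ)) fun _ _ => Iff.rfl]
  rfl

theorem wcdom_graphOf (N : ℕ) (φ : List PC) : WCDom (graphOf N φ) ↔
    Win (size N φ) (adj (4 * N) (twins N φ) (edges N φ)) ∅ ∅ := by
  unfold WCDom
  rw [domWins_iff _ (adj (4 * N) (twins N φ) (edges N φ)) fun _ _ => Iff.rfl]
  rfl

theorem edges_pf : PF fun p : ℕ × List PC => edges p.1 p.2 := by
  unfold edges fs Tm tri
  fun_prop

theorem matOf_pf : PF fun p : ℕ × List PC => matOf p.1 p.2 := by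
  have h : PF fun q : ℕ × List (List ℕ) =>
      (List.range (4 * q.1 + q.2.length * (4 * q.1 + q.2.length))).map fun i =>
        (List.range (4 * q.1 + q.2.length * (4 * q.1 + q.2.length))).map fun j =>
          adj (4 * q.1) (4 * q.1 + q.2.length) q.2 i j := by
    unfold adj half
    fun_prop
  exact h.comp (g := fun p : ℕ × List PC => (p.1, edges p.1 p.2)) (PF.pair (by fun_prop) edges_pf)

theorem echo_pf : PF fun p : ℕ × List PC => echo p.1 p.2 := by
  unfold echo echoC mv
  fun_prop

/-- The whole passage from ordered formulas to graphs. -/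
theorem reduce {n : ℕ} {ψ : List PC} (hb : Bdd n ψ) :
    (WForm ψ → WCDom (graphOf (2 * n + 1) (echo n ψ))) ∧
      (SForm ψ → ¬ WCDom (graphOf (2 * n + 1) (echo n ψ))) := by
  rw [wcdom_graphOf]
  exact ⟨fun h => win_of_wform (bdd_echo hb) (wform_echo n h),
    fun h => not_win_of_cform (bdd_echo hb) (cform_echo hb h) le_rfl⟩

end Pool.Agent.Lib.MP_2d136f_lc
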